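import Pool.Agent.Run7.h947.Poly

set_option autoImplicit false
set_option linter.unusedSectionVars false

namespace Run7.h947

open Finset Equiv Equiv.Perm

variable {Ω : Type} [Fintype Ω] [DecidableEq Ω]
variable {α : Type} [Fintype α] [DecidableEq α]

/-- `σ` moves only points of `P` -/
def On (P : Finset α) (σ : Perm α) : Prop := ∀ x, x ∉ P → σ x = x

lemma On.one (P : Finset α) : On P (1 : Perm α) := fun _ _ => rfl

lemma On.mul {P : Finset α} {σ τ : Perm α} (h1 : On P σ) (h2 : On P τ) : On P (σ * τ) := by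
  intro x hx
  rw [Perm.mul_apply, h2 x hx, h1 x hx]

lemma On.inv {P : Finset α} {σ : Perm α} (h1 : On P σ) : On P σ⁻¹ := by
  intro x hx
  rw [Perm.inv_eq_iff_eq, h1 x hx]

lemma On.comm {P Q : Finset α} (hPQ : Disjoint P Q) {σ τ : Perm α} (h1 : On P σ) (h2 : On Q τ) :
    σ * τ = τ * σ := by
  have : Equiv.Perm.Disjoint σ τ := by
    intro x
    by_cases hx : x ∈ P
    · right
      exact h2 x (fun h => (Finset.disjoint_left.mp hPQ) hx h)
    · left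
      exact h1 x hx
  exact this.commute.eq

lemma On.swap {P : Finset α} {x y : α} (hx : x ∈ P) (hy : y ∈ P) : On P (swap x y) := by
  intro z hz
  apply swap_apply_of_ne_of_ne
  · rintro rfl; exact hz hx
  · rintro rfl; exact hz hy

/-- products of an odd permutation of `P` and an odd permutation of `Q` -/
theorem alt2 (M : Subgroup (Perm α)) (hM : alternatingGroup α ≤ M) (ψ : M →* Perm Ω)
    (P Q : Finset α) (hPQ : Disjoint P Q) (ω₀ : Ω) (A : Set Ω) (hA : A.Nonempty)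
    (hA' : A ≠ Set.univ)
    (H : ∀ g : M, ∃ σ τ, On P σ ∧ On Q τ ∧ sign σ = -1 ∧ sign τ = -1 ∧ ∀ h : σ * τ ∈ M,
      ∀ ω ∈ A, (ψ g)⁻¹ (ψ ⟨σ * τ, h⟩ (ψ g ω)) ∈ A)
    (hs : Spreading ψ.range) :
    ∃ σ τ, On P σ ∧ On Q τ ∧ sign σ = -1 ∧ sign τ = -1 ∧ σ * τ ∈ stab M ψ ω₀ := by
  by_contra hcon
  push Not at hcon
  have hmem : ∀ σ τ : Perm α, sign σ = sign τ → σ * τ ∈ M := by
    intro σ τ h
    apply hM
    rw [Equiv.Perm.mem_alternatingGroup, Perm.sign_mul, h, Int.units_mul_self]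
  -- the multiplication rule
  have hmul : ∀ (σ τ σ' τ' : Perm α) (h : sign σ = sign τ) (h' : sign σ' = sign τ')
      (h2 : sign (σ * σ') = sign (τ * τ')), On P σ' → On Q τ → ∀ ω,
      ψ ⟨σ * τ, hmem σ τ h⟩ (ψ ⟨σ' * τ', hmem σ' τ' h'⟩ ω) =
      ψ ⟨(σ * σ') * (τ * τ'), hmem _ _ h2⟩ ω := by
    intro σ τ σ' τ' h h' h2 hσ' hτ ω
    rw [← Perm.mul_apply, ← map_mul]
    congr 2
    apply Subtype.ext
    show (σ * τ) * (σ' * τ') = (σ * σ') * (τ * τ')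
    have := On.comm hPQ hσ' hτ
    calc (σ * τ) * (σ' * τ') = σ * (τ * σ') * τ' := by group
      _ = σ * (σ' * τ) * τ' := by rw [this]
      _ = _ := by group
  refine not_spreading_of_swap ψ A
    {ω | ∃ σ τ, ∃ h : sign σ = sign τ, On P σ ∧ On Q τ ∧ sign σ = 1 ∧ ω = ψ ⟨σ * τ, hmem σ τ h⟩ ω₀}
    {ω | ∃ σ τ, ∃ h : sign σ = sign τ, On P σ ∧ On Q τ ∧ sign σ = -1 ∧
      ω = ψ ⟨σ * τ, hmem σ τ h⟩ ω₀} hA hA' ?_ ?_ ?_ hs
  · exact ⟨_, 1, 1, rfl, On.one P, On.one Q, sign_one, rfl⟩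
  · rw [Set.disjoint_left]
    rintro ω ⟨σ, τ, h, h1, h2, h3, h4⟩ ⟨σ', τ', h', h1', h2', h3', h4'⟩
    have h5 : sign (σ⁻¹ * σ') = sign (τ⁻¹ * τ') := by
      rw [Perm.sign_mul, Perm.sign_mul, sign_inv, sign_inv, h, h']
    have h6 : sign σ⁻¹ = sign τ⁻¹ := by rw [sign_inv, sign_inv, h]
    refine hcon (σ⁻¹ * σ') (τ⁻¹ * τ') (h1.inv.mul h1') (h2.inv.mul h2') ?_ ?_ ?_
    · rw [Perm.sign_mul, sign_inv, h3, h3']; rfl
    · rw [← h5, Perm.sign_mul, sign_inv, h3, h3']; rfl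
    · refine ⟨hmem _ _ h5, ?_⟩
      rw [← hmul σ⁻¹ τ⁻¹ σ' τ' h6 h' h5 h1' h2.inv, ← h4', h4]
      have h7 : sign (σ⁻¹ * σ) = sign (τ⁻¹ * τ) := by
        rw [inv_mul_cancel, inv_mul_cancel]
      rw [hmul σ⁻¹ τ⁻¹ σ τ h6 h h7 h1 h2.inv]
      have : (⟨(σ⁻¹ * σ) * (τ⁻¹ * τ), hmem _ _ h7⟩ : M) = 1 := by
        apply Subtype.ext
        show (σ⁻¹ * σ) * (τ⁻¹ * τ) = 1
        simp
      rw [this, map_one]; rfl
  · intro g
    obtain ⟨σ, τ, h1, h2, h3, h4, h5⟩ := H g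
    have h6 : sign σ = sign τ := by rw [h3, h4]
    refine ⟨⟨σ * τ, hmem _ _ h6⟩, ?_, ?_, h5 _⟩
    · rintro ω ⟨σ', τ', h', h1', h2', h3', rfl⟩
      have h7 : sign (σ * σ') = sign (τ * τ') := by rw [Perm.sign_mul, Perm.sign_mul, h6, h']
      refine ⟨σ * σ', τ * τ', h7, h1.mul h1', h2.mul h2', ?_, ?_⟩
      · rw [Perm.sign_mul, h3, h3']; rfl
      · exact hmul σ τ σ' τ' h6 h' h7 h1' h2 ω₀
    · rintro ω ⟨σ', τ', h', h1', h2', h3', rfl⟩
      have h7 : sign (σ * σ') = sign (τ * τ') := by rw [Perm.sign_mul, Perm.sign_mul, h6, h']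
      refine ⟨σ * σ', τ * τ', h7, h1.mul h1', h2.mul h2', ?_, ?_⟩
      · rw [Perm.sign_mul, h3, h3']; rfl
      · exact hmul σ τ σ' τ' h6 h' h7 h1' h2 ω₀

/-- Colouring criterion: if the stabiliser of a colouring with `r` colours is intransitive, then
every point stabiliser contains, for all disjoint `P, Q` with more than `r` points, a product of
odd permutations of `P` and of `Q`. -/
theorem colour (M : Subgroup (Perm α)) (hM : alternatingGroup α ≤ M) (ψ : M →* Perm Ω)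
    (r : ℕ) (c : α → Fin r) (ω₁ ω₂ : Ω)
    (hc : ∀ g : M, (∀ x, c ((g : Perm α) x) = c x) → ψ g ω₁ ≠ ω₂)
    (P Q : Finset α) (hPQ : Disjoint P Q) (hP : r < P.card) (hQ : r < Q.card)
    (hs : Spreading ψ.range) (ω₀ : Ω) :
    ∃ σ τ, On P σ ∧ On Q τ ∧ sign σ = -1 ∧ sign τ = -1 ∧ σ * τ ∈ stab M ψ ω₀ := by
  apply alt2 M hM ψ P Q hPQ ω₀ {ω | ∃ g : M, (∀ x, c ((g : Perm α) x) = c x) ∧ ψ g ω₁ = ω} _ _ _ hs
  · exact ⟨ω₁, 1, fun x => rfl, by simp⟩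
  · intro h
    have : ω₂ ∈ {ω | ∃ g : M, (∀ x, c ((g : Perm α) x) = c x) ∧ ψ g ω₁ = ω} := by
      rw [h]; trivial
    obtain ⟨g, h1, h2⟩ := this
    exact hc g h1 h2
  · intro g
    have key : ∀ S : Finset α, r < S.card → ∃ x ∈ S, ∃ y ∈ S, x ≠ y ∧
        c ((g : Perm α)⁻¹ x) = c ((g : Perm α)⁻¹ y) := by
      intro S hS
      have := Finset.exists_ne_map_eq_of_card_lt_of_maps_to (s := S)
        (t := (univ : Finset (Fin r))) (f := fun x => c ((g : Perm α)⁻¹ x)) (by simpa using hS)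
        (by intro x _; simp)
      obtain ⟨x, hx, y, hy, hxy, h⟩ := this
      exact ⟨x, hx, y, hy, hxy, h⟩
    have key2 : ∀ x y : α, c ((g : Perm α)⁻¹ x) = c ((g : Perm α)⁻¹ y) →
        ∀ z, c ((g : Perm α)⁻¹ (swap x y z)) = c ((g : Perm α)⁻¹ z) := by
      intro x y h z
      rw [swap_apply_def]
      split_ifs with h1 h2
      · rw [h1, h]
      · rw [h2, h]
      · rfl
    obtain ⟨x, hx, y, hy, hxy, h⟩ := key P hP
    obtain ⟨x', hx', y', hy', hxy', h'⟩ := key Q hQ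
    refine ⟨swap x y, swap x' y', On.swap hx hy, On.swap hx' hy', sign_swap hxy, sign_swap hxy',
      ?_⟩
    rintro hm ω ⟨k, hk, rfl⟩
    refine ⟨g⁻¹ * ⟨swap x y * swap x' y', hm⟩ * g * k, ?_, ?_⟩
    · intro z
      show c ((g : Perm α)⁻¹ (swap x y (swap x' y' ((g : Perm α) ((k : Perm α) z))))) = c z
      rw [key2 x y h, key2 x' y' h', ← hk z]
      congr 1
      simp
    · rw [map_mul, map_mul, map_mul, map_inv]
      rfl

end Run7.h947
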