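import Pool.Agent.Run7.h947.Struct2

set_option autoImplicit false
set_option linter.unusedSectionVars false
set_option linter.unusedSimpArgs false
set_option linter.unusedVariables false

namespace Run7.h947

open Finset Equiv Equiv.Perm
open scoped Pointwise

variable {α : Type} [Fintype α] [DecidableEq α]
variable {H : Subgroup (Perm α)}

/-- two permutations whose supports meet in one point have a commutator that is a 3-cycle -/
lemma comm_cyc (h k : Perm α) (d : α) (hd : h d ≠ d) (kd : k d ≠ d)
    (hk : ∀ x, x ≠ d → h x = x ∨ k x = x) :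
    h * k * h⁻¹ * k⁻¹ = cyc (k d) d (h d) ∧ k d ≠ d ∧ k d ≠ h d ∧ d ≠ h d := by
  have a1 : k (h d) = h d := by
    rcases hk (h d) hd with h1 | h1
    · exact absurd (h.injective h1) hd
    · exact h1
  have a2 : h (k d) = k d := by
    rcases hk (k d) kd with h1 | h1
    · exact h1
    · exact absurd (k.injective h1) kd
  have a3 : k d ≠ h d := by
    intro h1
    rw [← h1] at a1
    exact kd (k.injective a1)
  refine ⟨?_, kd, a3, hd.symm⟩
  have key : ∀ x, h (k x) = (cyc (k d) d (h d)) (k (h x)) := by
    intro x
    by_cases hx : x = d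
    · subst hx
      rw [a1, a2, cyc_apply_three]
    by_cases hx1 : h x = x
    · rw [hx1]
      by_cases hx2 : k x = x
      · rw [hx2, hx1]
        rw [cyc_apply_of_ne]
        · rintro rfl
          exact kd (k.injective hx2)
        · exact hx
        · rintro rfl
          exact hd (h.injective hx1)
      · by_cases hx3 : k x = d
        · rw [hx3, cyc_apply_two a3 hd.symm]
        · have h4 : h (k x) = k x := by
            rcases hk (k x) hx3 with h5 | h5
            · exact h5
            · exact absurd (k.injective h5) hx2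
          rw [h4, cyc_apply_of_ne]
          · intro h5
            exact hx (k.injective h5)
          · exact hx3
          · intro h5
            rw [h5] at h4
            exact hd (h.injective h4)
    · have hx2 : k x = x := by
        rcases hk x hx with h5 | h5
        · exact absurd h5 hx1
        · exact h5
      rw [hx2]
      by_cases hx3 : h x = d
      · rw [hx3, cyc_apply_one kd a3]
      · have h4 : k (h x) = h x := by
          rcases hk (h x) hx3 with h5 | h5
          · exact absurd (h.injective h5) hx1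
          · exact h5
        rw [h4, cyc_apply_of_ne]
        · intro h5
          rw [h5] at h4
          exact kd (k.injective h4)
        · exact hx3
        · intro h5
          exact hx (h.injective h5)
  ext x
  have := key (h⁻¹ (k⁻¹ x))
  simpa [Perm.mul_apply] using this

/-- Bochert's argument: a group without 3-cycles meets the symmetric group of some set of at
least half of the points trivially. -/
theorem bochert (hno : ∀ a b c : α, a ≠ b → a ≠ c → b ≠ c → cyc a b c ∉ H) :
    ∃ Γ : Finset α, Fintype.card α ≤ 2 * Γ.card ∧ ∀ h ∈ H, On Γ h → h = 1 := by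
  classical
  -- bases
  have hne : (univ.filter fun Δ : Finset α => ∀ h ∈ H, (∀ x ∈ Δ, h x = x) → h = 1).Nonempty := by
    refine ⟨univ, ?_⟩
    simp only [Finset.mem_filter, Finset.mem_univ, true_and]
    intro h _ hx
    ext x
    exact hx x trivial
  obtain ⟨Δ, hΔ, hmin⟩ := Finset.exists_min_image _ (fun Δ : Finset α => Δ.card) hne
  simp only [Finset.mem_filter, Finset.mem_univ, true_and] at hΔ hmin
  have hcompl : Δᶜ.card + Δ.card = Fintype.card α := Finset.card_compl_add_card Δ
  by_cases hc : 2 * Δ.card ≤ Fintype.card α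
  · refine ⟨Δᶜ, by omega, ?_⟩
    intro h hh hon
    apply hΔ h hh
    intro x hx
    apply hon
    simpa using hx
  · exfalso
    have h1 : ¬ ∀ h ∈ H, (∀ x ∈ Δᶜ, h x = x) → h = 1 := by
      intro h1
      have := hmin _ h1
      omega
    push Not at h1
    obtain ⟨h, hh, hfix, hne1⟩ := h1
    obtain ⟨d, hd⟩ : ∃ d, h d ≠ d := by
      by_contra hcon
      push Not at hcon
      apply hne1
      ext x
      exact hcon x
    have hdΔ : d ∈ Δ := by
      by_contra h2
      exact hd (hfix d (by simpa using h2))
    have h2 : ¬ ∀ h ∈ H, (∀ x ∈ Δ.erase d, h x = x) → h = 1 := by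
      intro h2
      have := hmin _ h2
      have h3 := Finset.card_erase_lt_of_mem hdΔ
      omega
    push Not at h2
    obtain ⟨k, hk, kfix, kne⟩ := h2
    have kd : k d ≠ d := by
      intro h3
      apply kne
      apply hΔ k hk
      intro x hx
      by_cases hxd : x = d
      · rw [hxd, h3]
      · exact kfix x (Finset.mem_erase.mpr ⟨hxd, hx⟩)
    have hsupp : ∀ x, x ≠ d → h x = x ∨ k x = x := by
      intro x hx
      by_cases hxΔ : x ∈ Δ
      · right
        exact kfix x (Finset.mem_erase.mpr ⟨hx, hxΔ⟩)
      · left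
        exact hfix x (by simpa using hxΔ)
    obtain ⟨e1, e2, e3, e4⟩ := comm_cyc h k d hd kd hsupp
    apply hno _ _ _ e2 e3 e4
    rw [← e1]
    exact H.mul_mem (H.mul_mem (H.mul_mem hh hk) (H.inv_mem hh)) (H.inv_mem hk)

/-- a subgroup transitive on triples with one 3-cycle has all 3-cycles -/
lemma all_cyc (hT : ∀ S S' : Finset α, S.card = S'.card → ∃ h ∈ H, ∀ x, x ∈ S → h x ∈ S')
    {a b c : α} (hab : a ≠ b) (hac : a ≠ c) (hbc : b ≠ c) (h : cyc a b c ∈ H)
    {x y z : α} (hxy : x ≠ y) (hxz : x ≠ z) (hyz : y ≠ z) : cyc x y z ∈ H := by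
  have hcard : ∀ u v w : α, u ≠ v → u ≠ w → v ≠ w → ({u, v, w} : Finset α).card = 3 := by
    intro u v w h1 h2 h3
    rw [Finset.card_eq_three]
    exact ⟨u, v, w, h1, h2, h3, rfl⟩
  obtain ⟨g, hg, hgS⟩ := hT {a, b, c} {x, y, z} (by rw [hcard _ _ _ hab hac hbc,
    hcard _ _ _ hxy hxz hyz])
  have h1 := conj_mem hg h
  rw [conj_cyc] at h1
  have ia := hgS a (by simp)
  have ib := hgS b (by simp)
  have ic := hgS c (by simp)
  simp only [Finset.mem_insert, Finset.mem_singleton] at ia ib ic
  have nab := g.injective.ne hab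
  have nac := g.injective.ne hac
  have nbc := g.injective.ne hbc
  have r1 : cyc y z x = cyc x y z := (cyc_rot hxy hxz hyz).symm
  have r2 : cyc z x y = cyc x y z := cyc_rot hxz.symm hyz.symm hxy
  have hinv : ∀ σ : Perm α, σ⁻¹ ∈ H → σ ∈ H := fun σ hσ => by
    have := H.inv_mem hσ
    rwa [inv_inv] at this
  have s1 : cyc y x z = (cyc x y z)⁻¹ := (cyc_inv hxy hxz hyz).symm
  have s2 : cyc x z y = (cyc x y z)⁻¹ := by rw [← s1, cyc_rot hxz hxy hyz.symm, cyc_rot hyz.symm hxz.symm hxy.symm]
  have s3 : cyc z y x = (cyc x y z)⁻¹ := by rw [← s1, cyc_rot hyz.symm hxz.symm hxy.symm]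
  rcases ia with ia | ia | ia <;> rcases ib with ib | ib | ib <;> rcases ic with ic | ic | ic <;>
    rw [ia, ib] at nab <;> rw [ia, ic] at nac <;> rw [ib, ic] at nbc <;>
    rw [ia, ib, ic] at h1 <;>
    first
    | exact absurd rfl nab
    | exact absurd rfl nac
    | exact absurd rfl nbc
    | exact h1
    | exact r1 ▸ h1
    | exact r2 ▸ h1
    | exact hinv _ (s1 ▸ h1)
    | exact hinv _ (s2 ▸ h1)
    | exact hinv _ (s3 ▸ h1)

end Run7.h947
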