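import Pool.Agent.Run7.h947.Defs

set_option autoImplicit false

namespace Run7.h947

open Finset

variable {Ω : Type} [Fintype Ω] [DecidableEq Ω]

/-- Basic criterion: a non-trivial set `A` and two disjoint sets `P, N` of the same size met
equally often by every translate of `A`. -/
theorem not_spreading_of_finsets (G : Subgroup (Equiv.Perm Ω)) (A P N : Finset Ω)
    (hA : A.Nonempty) (hA' : A ≠ univ) (hP : P.Nonempty) (hPN : Disjoint P N)
    (hc : P.card = N.card)
    (h : ∀ g ∈ G, (A.image g ∩ P).card = (A.image g ∩ N).card) : ¬ Spreading G := by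
  intro hs
  have e : N ≃ P := Finset.equivOfCardEq hc.symm
  let t : Ω → Ω := fun y => if hy : y ∈ N then (e ⟨y, hy⟩ : Ω) else y
  have htP : ∀ y (hy : y ∈ N), t y = (e ⟨y, hy⟩ : Ω) := fun y hy => dif_pos hy
  have htN : ∀ y, y ∉ N → t y = y := fun y hy => dif_neg hy
  have hdis : ∀ y, y ∈ P → y ∉ N := fun y h1 h2 => (Finset.disjoint_left.mp hPN) h1 h2
  obtain ⟨p, hp⟩ := hP
  have hinj : ¬ Function.Bijective t := by
    rintro ⟨hi, -⟩
    have hn := (e.symm ⟨p, hp⟩).2
    have h1 : t (e.symm ⟨p, hp⟩ : Ω) = p := by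
      rw [htP _ hn]
      simp
    have h2 : t p = p := htN p (hdis p hp)
    have h3 := hi (h1.trans h2.symm)
    rw [h3] at hn
    exact hdis p hp hn
  obtain ⟨g, hg, hlt⟩ := hs A hA hA' t hinj
  set B := A.image g with hB
  have hBc : B.card = A.card := Finset.card_image_of_injective _ g.injective
  have key : (univ.filter fun x => t x ∈ B).card = B.card := by
    have h1 : (univ.filter fun x => t x ∈ B) =
        (B \ N) ∪ (univ.filter fun x => x ∈ N ∧ t x ∈ B) := by
      ext x
      simp only [mem_filter, mem_univ, true_and, mem_union, mem_sdiff]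
      by_cases hx : x ∈ N
      · simp [hx]
      · simp [hx, htN x hx]
    have h2 : Disjoint (B \ N) (univ.filter fun x => x ∈ N ∧ t x ∈ B) := by
      rw [Finset.disjoint_left]
      intro x hx hx'
      simp only [mem_filter, mem_univ, true_and, mem_sdiff] at hx hx'
      exact hx.2 hx'.1
    have h3 : (univ.filter fun x => x ∈ N ∧ t x ∈ B).card = (B ∩ P).card := by
      apply Finset.card_bij (fun x _ => t x)
      · intro x hx
        simp only [mem_filter, mem_univ, true_and] at hx
        rw [mem_inter]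
        refine ⟨hx.2, ?_⟩
        rw [htP x hx.1]
        exact (e ⟨x, hx.1⟩).2
      · intro x hx y hy hxy
        simp only [mem_filter, mem_univ, true_and] at hx hy
        rw [htP x hx.1, htP y hy.1] at hxy
        have := e.injective (Subtype.ext hxy)
        exact congrArg Subtype.val this
      · intro y hy
        rw [mem_inter] at hy
        refine ⟨e.symm ⟨y, hy.2⟩, ?_, ?_⟩
        · simp only [mem_filter, mem_univ, true_and]
          refine ⟨(e.symm ⟨y, hy.2⟩).2, ?_⟩
          rw [htP _ (e.symm ⟨y, hy.2⟩).2]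
          simpa using hy.1
        · rw [htP _ (e.symm ⟨y, hy.2⟩).2]
          simp
    have h5 : (B ∩ P).card = (B ∩ N).card := h g hg
    rw [h1, Finset.card_union_of_disjoint h2, h3, h5, Finset.card_sdiff, Finset.inter_comm N B]
    have := Finset.card_le_card (Finset.inter_subset_left : B ∩ N ⊆ B)
    omega
  rw [key, hBc] at hlt
  exact lt_irrefl _ hlt

/-- Swapping criterion: for every `g` some `τ` preserves the translate of `A` by `g` and
exchanges `P` and `N`. -/
theorem not_spreading_of_swap {M : Type} [Group M] (ψ : M →* Equiv.Perm Ω) (A P N : Set Ω)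
    (hA : A.Nonempty) (hA' : A ≠ Set.univ) (hP : P.Nonempty) (hPN : Disjoint P N)
    (h : ∀ g : M, ∃ τ : M, (∀ ω ∈ P, ψ τ ω ∈ N) ∧ (∀ ω ∈ N, ψ τ ω ∈ P) ∧
      (∀ ω ∈ A, (ψ g)⁻¹ (ψ τ (ψ g ω)) ∈ A)) : ¬ Spreading ψ.range := by
  classical
  apply not_spreading_of_finsets ψ.range A.toFinset P.toFinset N.toFinset
  · simpa using hA
  · intro h1
    apply hA'
    ext x
    have : x ∈ A.toFinset := by rw [h1]; exact Finset.mem_univ x
    simpa using this
  · simpa using hP
  · rw [Finset.disjoint_left]
    intro x hx hx'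
    rw [Set.mem_toFinset] at hx hx'
    exact (Set.disjoint_left.mp hPN) hx hx'
  · obtain ⟨τ, h1, h2, -⟩ := h 1
    apply le_antisymm
    · apply Finset.card_le_card_of_injOn (ψ τ)
      · intro x hx
        simp only [Set.coe_toFinset] at hx ⊢
        exact h1 x hx
      · exact (ψ τ).injective.injOn
    · apply Finset.card_le_card_of_injOn (ψ τ)
      · intro x hx
        simp only [Set.coe_toFinset] at hx ⊢
        exact h2 x hx
      · exact (ψ τ).injective.injOn
  · rintro _ ⟨g, rfl⟩
    obtain ⟨τ, h1, h2, h3⟩ := h g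
    have h4 : ∀ ω ∈ A.toFinset.image (ψ g), ψ τ ω ∈ A.toFinset.image (ψ g) := by
      intro ω hω
      rw [Finset.mem_image] at hω ⊢
      obtain ⟨a, ha, rfl⟩ := hω
      rw [Set.mem_toFinset] at ha
      exact ⟨_, Set.mem_toFinset.mpr (h3 a ha), by simp⟩
    apply le_antisymm
    · apply Finset.card_le_card_of_injOn (ψ τ)
      · intro x hx
        rw [Finset.mem_coe, Finset.mem_inter, Set.mem_toFinset] at hx ⊢
        exact ⟨h4 x hx.1, h1 x hx.2⟩
      · exact (ψ τ).injective.injOn
    · apply Finset.card_le_card_of_injOn (ψ τ)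
      · intro x hx
        rw [Finset.mem_coe, Finset.mem_inter, Set.mem_toFinset] at hx ⊢
        exact ⟨h4 x hx.1, h2 x hx.2⟩
      · exact (ψ τ).injective.injOn

end Run7.h947
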