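import Mathlib

set_option autoImplicit false

namespace Run7.h947

open Finset

variable {Ω : Type} [Fintype Ω] [DecidableEq Ω]

/-- `G` is spreading: for every non-empty proper subset `A` and every map `t` that is not a
bijection, some `g ∈ G` satisfies `|(Ag)t⁻¹| > |A|`. -/
def Spreading (G : Subgroup (Equiv.Perm Ω)) : Prop :=
  ∀ A : Finset Ω, A.Nonempty → A ≠ univ → ∀ t : Ω → Ω, ¬ Function.Bijective t →
    ∃ g ∈ G, A.card < (univ.filter fun x => t x ∈ A.image g).card

/-- The augmentation submodule `{f : Ω → ℚ : ∑ f(x) = 0}` of the rational permutation module. -/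
def augmentation (Ω : Type) [Fintype Ω] : Submodule ℚ (Ω → ℚ) where
  carrier := {f | ∑ x, f x = 0}
  add_mem' := by
    intro f g hf hg
    have h1 : ∑ x, f x = 0 := hf
    have h2 : ∑ x, g x = 0 := hg
    show ∑ x, (f x + g x) = 0
    rw [Finset.sum_add_distrib, h1, h2, add_zero]
  zero_mem' := by
    show ∑ _x : Ω, (0 : ℚ) = 0
    exact Finset.sum_const_zero
  smul_mem' := by
    intro c f hf
    have h1 : ∑ x, f x = 0 := hf
    show ∑ x, c * f x = 0
    rw [← Finset.mul_sum, h1, mul_zero]

/-- `G` is QI: the augmentation submodule is an irreducible `ℚG`-module, that is, it is nonzero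
and its only `G`-invariant subspaces are `0` and itself. -/
def QI (G : Subgroup (Equiv.Perm Ω)) : Prop :=
  augmentation Ω ≠ ⊥ ∧ ∀ W : Submodule ℚ (Ω → ℚ), W ≤ augmentation Ω →
    (∀ g ∈ G, ∀ f ∈ W, (fun x => f (g x)) ∈ W) → W = ⊥ ∨ W = augmentation Ω

/-- `G` is transitive. -/
def Transitive (G : Subgroup (Equiv.Perm Ω)) : Prop := ∀ x y : Ω, ∃ g ∈ G, g x = y

end Run7.h947
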