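import Pool.Agent.Run7.h947.Core

set_option autoImplicit false
set_option linter.unusedSectionVars false

namespace Run7.h947

open Finset Equiv Equiv.Perm
open scoped Pointwise

variable {Ω : Type} [Fintype Ω] [DecidableEq Ω]
variable {α : Type} [Fintype α] [DecidableEq α]

/-- rotation of the `n`-gon -/
def rot (n : ℕ) (i : ZMod n) : Perm (ZMod n) := Equiv.addRight i
/-- reflection of the `n`-gon -/
def rfl' (n : ℕ) (j : ZMod n) : Perm (ZMod n) := Equiv.subLeft j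

lemma rot_apply (n : ℕ) (i x : ZMod n) : rot n i x = x + i := rfl
lemma rfl'_apply (n : ℕ) (j x : ZMod n) : rfl' n j x = j - x := rfl

/-- extension of a permutation of `β` along an embedding -/
def em {β : Type} [Fintype β] [DecidableEq β] (ι : β ↪ α) (σ : Perm β) : Perm α :=
  σ.viaFintypeEmbedding ι

lemma em_apply {β : Type} [Fintype β] [DecidableEq β] (ι : β ↪ α) (σ : Perm β) (x : β) :
    em ι σ (ι x) = ι (σ x) := Equiv.Perm.viaFintypeEmbedding_apply_image _ _ _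

lemma em_apply_not {β : Type} [Fintype β] [DecidableEq β] (ι : β ↪ α) (σ : Perm β) (y : α)
    (hy : y ∉ Set.range ι) : em ι σ y = y :=
  Equiv.Perm.viaFintypeEmbedding_apply_notMem_range _ _ hy

lemma em_mul {β : Type} [Fintype β] [DecidableEq β] (ι : β ↪ α) (σ τ : Perm β) :
    em ι (σ * τ) = em ι σ * em ι τ := by
  ext y
  by_cases hy : y ∈ Set.range ι
  · obtain ⟨x, rfl⟩ := hy
    rw [Perm.mul_apply, em_apply, em_apply, em_apply, Perm.mul_apply]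
  · rw [Perm.mul_apply, em_apply_not _ _ _ hy, em_apply_not _ _ _ hy, em_apply_not _ _ _ hy]

lemma em_one {β : Type} [Fintype β] [DecidableEq β] (ι : β ↪ α) :
    em ι (1 : Perm β) = 1 := by
  ext y
  by_cases hy : y ∈ Set.range ι
  · obtain ⟨x, rfl⟩ := hy
    rw [em_apply]; rfl
  · rw [em_apply_not _ _ _ hy]; rfl

lemma em_sign {β : Type} [Fintype β] [DecidableEq β] (ι : β ↪ α) (σ : Perm β) :
    sign (em ι σ) = sign σ := Equiv.Perm.viaFintypeEmbedding_sign _ _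

/-- the stabiliser of `ω`, as a subgroup of `Perm α` -/
def stab (M : Subgroup (Perm α)) (ψ : M →* Perm Ω) (ω : Ω) : Subgroup (Perm α) where
  carrier := {σ | ∃ h : σ ∈ M, ψ ⟨σ, h⟩ ω = ω}
  mul_mem' := by
    rintro a b ⟨ha, ha'⟩ ⟨hb, hb'⟩
    refine ⟨M.mul_mem ha hb, ?_⟩
    have : (⟨a * b, M.mul_mem ha hb⟩ : M) = ⟨a, ha⟩ * ⟨b, hb⟩ := rfl
    rw [this, map_mul, Perm.mul_apply, hb', ha']
  one_mem' := ⟨M.one_mem, by
    have : (⟨1, M.one_mem⟩ : M) = 1 := rfl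
    rw [this, map_one]; rfl⟩
  inv_mem' := by
    rintro a ⟨ha, ha'⟩
    refine ⟨M.inv_mem ha, ?_⟩
    have : (⟨a⁻¹, M.inv_mem ha⟩ : M) = ⟨a, ha⟩⁻¹ := rfl
    rw [this, map_inv, Perm.inv_eq_iff_eq, ha']

lemma mem_stab (M : Subgroup (Perm α)) (ψ : M →* Perm Ω) (ω : Ω) (σ : Perm α) :
    σ ∈ stab M ψ ω ↔ ∃ h : σ ∈ M, ψ ⟨σ, h⟩ ω = ω := Iff.rfl

lemma mem_stab' (M : Subgroup (Perm α)) (ψ : M →* Perm Ω) (ω : Ω) (σ : M) :
    (σ : Perm α) ∈ stab M ψ ω ↔ ψ σ ω = ω :=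
  ⟨fun ⟨_, h⟩ => h, fun h => ⟨σ.2, h⟩⟩

lemma mem_stab_smul (M : Subgroup (Perm α)) (ψ : M →* Perm Ω) (ω : Ω) (g : M) (σ : Perm α) :
    σ ∈ stab M ψ (ψ g ω) ↔ (g : Perm α)⁻¹ * σ * g ∈ stab M ψ ω := by
  constructor
  · rintro ⟨h, h'⟩
    refine ⟨M.mul_mem (M.mul_mem (M.inv_mem g.2) h) g.2, ?_⟩
    have : (⟨(g : Perm α)⁻¹ * σ * g, M.mul_mem (M.mul_mem (M.inv_mem g.2) h) g.2⟩ : M) =
      g⁻¹ * ⟨σ, h⟩ * g := rfl
    rw [this, map_mul, map_mul, map_inv, Perm.mul_apply, Perm.mul_apply, h', Perm.inv_eq_iff_eq]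
  · rintro ⟨h, h'⟩
    have hσ : σ ∈ M := by
      have := M.mul_mem (M.mul_mem g.2 h) (M.inv_mem g.2)
      simpa [mul_assoc] using this
    refine ⟨hσ, ?_⟩
    have : (⟨σ, hσ⟩ : M) = g * ⟨(g : Perm α)⁻¹ * σ * g, h⟩ * g⁻¹ := by
      apply Subtype.ext
      simp [mul_assoc]
    rw [this, map_mul, map_mul, map_inv, Perm.mul_apply, Perm.mul_apply]
    have h2 : (ψ g)⁻¹ (ψ g ω) = ω := by rw [Perm.inv_eq_iff_eq]
    rw [h2, h']

/-- Dihedral criterion. -/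
theorem dih (n : ℕ) [NeZero n] (M : Subgroup (Perm α)) (ψ : M →* Perm Ω) (ι : ZMod n ↪ α)
    (hrot : ∀ i, em ι (rot n i) ∈ M) (href : ∀ j, em ι (rfl' n j) ∈ M) (ω₀ : Ω) (A : Set Ω)
    (hA : A.Nonempty) (hA' : A ≠ Set.univ)
    (H : ∀ g : M, ∃ j, ∀ ω ∈ A, (ψ g)⁻¹ (ψ ⟨em ι (rfl' n j), href j⟩ (ψ g ω)) ∈ A)
    (hfix : ∀ j, em ι (rfl' n j) ∉ stab M ψ ω₀) : ¬ Spreading ψ.range := by
  have e1 : ∀ i j, rfl' n j * rot n i = rfl' n (j - i) := by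
    intro i j; ext x
    rw [Perm.mul_apply, rfl'_apply, rot_apply, rfl'_apply]; ring
  have e2 : ∀ k j, rfl' n j * rfl' n k = rot n (j - k) := by
    intro i j; ext x
    rw [Perm.mul_apply, rfl'_apply, rfl'_apply, rot_apply]; ring
  have e3 : ∀ i, (rot n i)⁻¹ = rot n (-i) := by
    intro i
    rw [inv_eq_iff_mul_eq_one]
    ext x
    rw [Perm.mul_apply, rot_apply, rot_apply]; simp
  have e4 : ∀ i j, rot n i * rfl' n j = rfl' n (j + i) := by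
    intro i j; ext x
    rw [Perm.mul_apply, rfl'_apply, rot_apply, rfl'_apply]; ring
  have f1 : ∀ i j ω, ψ ⟨em ι (rfl' n j), href j⟩ (ψ ⟨em ι (rot n i), hrot i⟩ ω) =
      ψ ⟨em ι (rfl' n (j - i)), href (j - i)⟩ ω := by
    intro i j ω
    rw [← Perm.mul_apply, ← map_mul]
    congr 2
    apply Subtype.ext
    show em ι (rfl' n j) * em ι (rot n i) = _
    rw [← em_mul, e1]
  have f2 : ∀ k j ω, ψ ⟨em ι (rfl' n j), href j⟩ (ψ ⟨em ι (rfl' n k), href k⟩ ω) =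
      ψ ⟨em ι (rot n (j - k)), hrot (j - k)⟩ ω := by
    intro i j ω
    rw [← Perm.mul_apply, ← map_mul]
    congr 2
    apply Subtype.ext
    show em ι (rfl' n j) * em ι (rfl' n i) = _
    rw [← em_mul, e2]
  have f4 : ∀ i j ω, ψ ⟨em ι (rot n i), hrot i⟩ (ψ ⟨em ι (rfl' n j), href j⟩ ω) =
      ψ ⟨em ι (rfl' n (j + i)), href (j + i)⟩ ω := by
    intro i j ω
    rw [← Perm.mul_apply, ← map_mul]
    congr 2
    apply Subtype.ext
    show em ι (rot n i) * em ι (rfl' n j) = _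
    rw [← em_mul, e4]
  have f3 : ∀ i ω, ψ ⟨em ι (rot n (-i)), hrot (-i)⟩ (ψ ⟨em ι (rot n i), hrot i⟩ ω) = ω := by
    intro i ω
    rw [← Perm.mul_apply, ← map_mul]
    have : (⟨em ι (rot n (-i)), hrot (-i)⟩ * ⟨em ι (rot n i), hrot i⟩ : M) = 1 := by
      apply Subtype.ext
      show em ι (rot n (-i)) * em ι (rot n i) = 1
      rw [← em_mul, ← e3, inv_mul_cancel, em_one]
    rw [this, map_one]; rfl
  apply not_spreading_of_swap ψ A {ω | ∃ i, ω = ψ ⟨em ι (rot n i), hrot i⟩ ω₀}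
    {ω | ∃ j, ω = ψ ⟨em ι (rfl' n j), href j⟩ ω₀} hA hA' ⟨_, 0, rfl⟩
  · rw [Set.disjoint_left]
    rintro ω ⟨i, hi⟩ ⟨j, hj⟩
    apply hfix (j + -i)
    refine ⟨href _, ?_⟩
    rw [← f4, ← hj, hi, f3]
  · intro g
    obtain ⟨j, hj⟩ := H g
    refine ⟨⟨em ι (rfl' n j), href j⟩, ?_, ?_, hj⟩
    · rintro ω ⟨i, rfl⟩
      exact ⟨j - i, f1 i j ω₀⟩
    · rintro ω ⟨k, rfl⟩
      exact ⟨j - k, f2 k j ω₀⟩

lemma sign_rot5 : ∀ i, sign (rot 5 i) = 1 := by decide +kernel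
lemma sign_rfl5 : ∀ i, sign (rfl' 5 i) = 1 := by decide +kernel
lemma sign_rot9 : ∀ i, sign (rot 9 i) = 1 := by decide +kernel
lemma sign_rfl9 : ∀ i, sign (rfl' 9 i) = 1 := by decide +kernel

/-- every subset of the pentagon has an axis of symmetry -/
lemma pentagon_sym : ∀ s : Finset (ZMod 5), ∃ j, ∀ x, x ∈ s ↔ j - x ∈ s := by decide +kernel

/-- every pair of vertices of the nonagon has an axis of symmetry -/
lemma nonagon_sym : ∀ a b : ZMod 9, ∃ j, j - a = b ∧ j - b = a := by decide +kernel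

lemma nonagon_fix : ∀ a : ZMod 9, ∃ j, j - a = a := by decide +kernel

/-- the set `{0, 1, 3}` of vertices of the nonagon has no axis of symmetry -/
lemma nonagon_asym : ∀ j : ZMod 9, ∃ x, (x = 0 ∨ x = 1 ∨ x = 3) ∧
    ¬ (j - x = 0 ∨ j - x = 1 ∨ j - x = 3) := by decide +kernel

end Run7.h947
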