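import Pool.Agent.Run7.h947.Poly

set_option autoImplicit false
set_option linter.unusedSectionVars false

namespace Run7.h947

open Finset Equiv Equiv.Perm
open scoped Pointwise

variable {Ω : Type} [Fintype Ω] [DecidableEq Ω]
variable {α : Type} [Fintype α] [DecidableEq α]

/-- any two finsets of the same size are in one orbit of `H` -/
def SetTrans (H : Subgroup (Perm α)) : Prop :=
  ∀ S S' : Finset α, S.card = S'.card → ∃ h ∈ H, h • S = S'

lemma smul_eq_self_of (σ : Perm α) (T : Finset α) (h : ∀ y, y ∈ T → σ y ∈ T) : σ • T = T := by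
  apply Finset.eq_of_subset_of_card_le
  · intro y hy
    rw [Finset.mem_smul_finset] at hy
    obtain ⟨x, hx, rfl⟩ := hy
    exact h x hx
  · rw [Finset.card_smul_finset]

lemma sym_finset (ι : ZMod 5 ↪ α) (T : Finset α) : ∃ j, em ι (rfl' 5 j) • T = T := by
  obtain ⟨j, hj⟩ := pentagon_sym (univ.filter fun x => ι x ∈ T)
  refine ⟨j, smul_eq_self_of _ _ ?_⟩
  intro y hy
  by_cases h : y ∈ Set.range ι
  · obtain ⟨x, rfl⟩ := h
    rw [em_apply, rfl'_apply]
    have := (hj x).mp (by simpa using hy)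
    simpa using this
  · rw [em_apply_not _ _ _ h]; exact hy

lemma exists_alt_smul (h3 : 3 ≤ Fintype.card α) (S S' : Finset α) (h : S.card = S'.card) :
    ∃ g ∈ alternatingGroup α, g • S = S' := by
  have h3' : 3 ≤ Nat.card α := by rwa [Nat.card_eq_fintype_card]
  have := Set.powersetCard.isPretransitive_alternatingGroup (α := α) (n := S.card) h3'
  obtain ⟨g, hg⟩ := this.exists_smul_eq ⟨S, rfl⟩ ⟨S', h.symm⟩
  refine ⟨g, g.2, ?_⟩
  have := congrArg Subtype.val hg
  exact this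

/-- If `ψ.range` is spreading and the stabiliser of `ω₀` is not set-transitive, it contains a
reflection of every pentagon. -/
theorem stepA (h3 : 3 ≤ Fintype.card α) (M : Subgroup (Perm α)) (hM : alternatingGroup α ≤ M)
    (ψ : M →* Perm Ω) (hs : Spreading ψ.range) (ω₀ : Ω) (hst : ¬ SetTrans (stab M ψ ω₀))
    (ι : ZMod 5 ↪ α) : ∃ j, em ι (rfl' 5 j) ∈ stab M ψ ω₀ := by
  by_contra hcon
  push Not at hcon
  unfold SetTrans at hst
  push Not at hst
  obtain ⟨S, S', hSS, hno⟩ := hst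
  have hrot : ∀ i, em ι (rot 5 i) ∈ M := fun i => hM (by
    rw [Equiv.Perm.mem_alternatingGroup, em_sign, sign_rot5])
  have href : ∀ i, em ι (rfl' 5 i) ∈ M := fun i => hM (by
    rw [Equiv.Perm.mem_alternatingGroup, em_sign, sign_rfl5])
  refine dih 5 M ψ ι hrot href ω₀ {ω | ∃ g : M, (g : Perm α) • S = S ∧ ψ g ω₀ = ω} ?_ ?_ ?_ hcon hs
  · exact ⟨ω₀, 1, by simp, by simp⟩
  · obtain ⟨g, hg, hgS⟩ := exists_alt_smul h3 S S' hSS
    intro huniv
    have h1 : ψ (⟨g, hM hg⟩ : M)⁻¹ ω₀ ∈ {ω | ∃ g : M, (g : Perm α) • S = S ∧ ψ g ω₀ = ω} := by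
      rw [huniv]; trivial
    obtain ⟨k, hk, hk'⟩ := h1
    apply hno (g * k)
    · refine ⟨M.mul_mem (hM hg) k.2, ?_⟩
      have : (⟨g * k, M.mul_mem (hM hg) k.2⟩ : M) = ⟨g, hM hg⟩ * k := rfl
      rw [this, map_mul, Perm.mul_apply, hk', map_inv]
      rw [← Perm.mul_apply, mul_inv_cancel]; rfl
    · rw [mul_smul, hk, hgS]
  · intro g
    obtain ⟨j, hj⟩ := sym_finset ι ((g : Perm α) • S)
    refine ⟨j, ?_⟩
    rintro ω ⟨k, hk, rfl⟩
    refine ⟨g⁻¹ * ⟨em ι (rfl' 5 j), href j⟩ * g * k, ?_, ?_⟩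
    · show ((g : Perm α)⁻¹ * em ι (rfl' 5 j) * g * k) • S = S
      rw [mul_smul, hk, mul_smul, mul_smul, hj, inv_smul_smul]
    · rw [map_mul, map_mul, map_mul, map_inv]
      rfl

end Run7.h947
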