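import Pool.Agent.Run7.h947.Alt2

set_option autoImplicit false
set_option linter.unusedSectionVars false
set_option linter.unusedSimpArgs false

namespace Run7.h947

open Finset Equiv Equiv.Perm

variable {α : Type} [Fintype α] [DecidableEq α]

/-- the `3`-cycle `a → b → c → a` -/
def cyc (a b c : α) : Perm α := swap a b * swap b c

lemma conj_swap (h : Perm α) (a b : α) : h * swap a b * h⁻¹ = swap (h a) (h b) := by
  rw [Equiv.swap_apply_apply]

lemma conj_cyc (h : Perm α) (a b c : α) : h * cyc a b c * h⁻¹ = cyc (h a) (h b) (h c) := by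
  unfold cyc
  rw [← conj_swap, ← conj_swap]; group

lemma conj_double (h : Perm α) (a b c d : α) :
    h * (swap a b * swap c d) * h⁻¹ = swap (h a) (h b) * swap (h c) (h d) := by
  rw [← conj_swap, ← conj_swap]; group

lemma conj_mem {H : Subgroup (Perm α)} {h σ : Perm α} (hh : h ∈ H) (hσ : σ ∈ H) :
    h * σ * h⁻¹ ∈ H := H.mul_mem (H.mul_mem hh hσ) (H.inv_mem hh)

lemma cyc_apply_one {a b c : α} (hab : a ≠ b) (hac : a ≠ c) : cyc a b c a = b := by
  simp only [cyc, Perm.mul_apply, swap_apply_def]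
  split_ifs <;> simp_all

lemma cyc_apply_two {a b c : α} (hac : a ≠ c) (hbc : b ≠ c) : cyc a b c b = c := by
  simp only [cyc, Perm.mul_apply, swap_apply_def]
  split_ifs <;> simp_all

lemma cyc_apply_three {a b c : α} : cyc a b c c = a := by
  simp only [cyc, Perm.mul_apply, swap_apply_def]
  split_ifs <;> simp_all

lemma cyc_apply_of_ne {a b c x : α} (hxa : x ≠ a) (hxb : x ≠ b) (hxc : x ≠ c) :
    cyc a b c x = x := by
  simp only [cyc, Perm.mul_apply, swap_apply_def]
  split_ifs <;> simp_all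

lemma cyc_inv {a b c : α} (hab : a ≠ b) (hac : a ≠ c) (hbc : b ≠ c) :
    (cyc a b c)⁻¹ = cyc b a c := by
  rw [inv_eq_iff_mul_eq_one]
  ext x
  by_cases h1 : x = a
  · subst h1; simp [cyc_apply_one, cyc_apply_two, cyc_apply_three, *, hab.symm, hac.symm, hbc.symm]
  by_cases h2 : x = b
  · subst h2; simp [cyc_apply_one, cyc_apply_two, cyc_apply_three, *, hab.symm, hac.symm, hbc.symm]
  by_cases h3 : x = c
  · subst h3; simp [cyc_apply_one, cyc_apply_two, cyc_apply_three, *, hab.symm, hac.symm, hbc.symm]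
  rw [Perm.mul_apply, cyc_apply_of_ne h2 h1 h3, cyc_apply_of_ne h1 h2 h3]; rfl

lemma cyc_rot {a b c : α} (hab : a ≠ b) (hac : a ≠ c) (hbc : b ≠ c) :
    cyc a b c = cyc b c a := by
  ext x
  by_cases h1 : x = a
  · subst h1; simp [cyc_apply_one, cyc_apply_two, cyc_apply_three, *, hab.symm, hac.symm, hbc.symm]
  by_cases h2 : x = b
  · subst h2; simp [cyc_apply_one, cyc_apply_two, cyc_apply_three, *, hab.symm, hac.symm, hbc.symm]
  by_cases h3 : x = c
  · subst h3; simp [cyc_apply_one, cyc_apply_two, cyc_apply_three, *, hab.symm, hac.symm, hbc.symm]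
  rw [cyc_apply_of_ne h1 h2 h3, cyc_apply_of_ne h2 h3 h1]

lemma cyc_mul_one {a b c d : α} (hab : a ≠ b) (hac : a ≠ c) (had : a ≠ d) (hbc : b ≠ c)
    (hbd : b ≠ d) (hcd : c ≠ d) : cyc a b c * cyc c b d = cyc a b d := by
  ext x
  rw [Perm.mul_apply]
  by_cases h1 : x = a
  · subst h1
    rw [cyc_apply_of_ne hac hab had, cyc_apply_one hab hac, cyc_apply_one hab had]
  by_cases h2 : x = b
  · subst h2
    rw [cyc_apply_two hcd hbd, cyc_apply_of_ne had.symm hbd.symm hcd.symm, cyc_apply_two had hbd]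
  by_cases h3 : x = c
  · subst h3
    rw [cyc_apply_one hbc.symm hcd, cyc_apply_two hac hbc, cyc_apply_of_ne hac.symm hbc.symm hcd]
  by_cases h4 : x = d
  · subst h4
    rw [cyc_apply_three, cyc_apply_three, cyc_apply_three]
  rw [cyc_apply_of_ne h3 h2 h4, cyc_apply_of_ne h1 h2 h3, cyc_apply_of_ne h1 h2 h4]

lemma cyc_mul_two {a b c d : α} (hab : a ≠ b) (hac : a ≠ c) (had : a ≠ d) (hbc : b ≠ c)
    (hbd : b ≠ d) (hcd : c ≠ d) : cyc a c d * cyc a b c = cyc a b d := by
  ext x
  rw [Perm.mul_apply]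
  by_cases h1 : x = a
  · subst h1
    rw [cyc_apply_one hab hac, cyc_apply_of_ne hab.symm hbc hbd, cyc_apply_one hab had]
  by_cases h2 : x = b
  · subst h2
    rw [cyc_apply_two hac hbc, cyc_apply_two had hcd, cyc_apply_two had hbd]
  by_cases h3 : x = c
  · subst h3
    rw [cyc_apply_three, cyc_apply_one hac had, cyc_apply_of_ne hac.symm hbc.symm hcd]
  by_cases h4 : x = d
  · subst h4
    rw [cyc_apply_of_ne h1 h2 h3, cyc_apply_three, cyc_apply_three]
  rw [cyc_apply_of_ne h1 h2 h3, cyc_apply_of_ne h1 h3 h4, cyc_apply_of_ne h1 h2 h4]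

lemma swap_mul_swap_cyc {a b c : α} : swap a b * swap b c = cyc a b c := rfl

lemma swaps_comm {a b c d : α} (hac : a ≠ c) (had : a ≠ d) (hbc : b ≠ c) (hbd : b ≠ d) :
    swap a b * swap c d = swap c d * swap a b := by
  have : Equiv.Perm.Disjoint (swap a b) (swap c d) := by
    intro x
    by_cases h1 : x = a
    · right; subst h1; exact swap_apply_of_ne_of_ne hac had
    by_cases h2 : x = b
    · right; subst h2; exact swap_apply_of_ne_of_ne hbc hbd
    left; exact swap_apply_of_ne_of_ne h1 h2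
  exact this.commute.eq

lemma double_mul {a b c d d' : α} (hac : a ≠ c) (hbc : b ≠ c) (had : a ≠ d) (hbd : b ≠ d) :
    (swap a b * swap c d) * (swap a b * swap c d') = cyc d c d' := by
  rw [swaps_comm hac had hbc hbd, mul_assoc, ← mul_assoc (swap a b) (swap a b), swap_mul_self,
    one_mul, swap_comm c d]
  rfl

end Run7.h947
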