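import Pool.Agent.Run7.h947.Bochert

set_option autoImplicit false
set_option linter.unusedSectionVars false
set_option linter.unusedSimpArgs false
set_option linter.unusedVariables false

namespace Run7.h947

open Finset Equiv Equiv.Perm
open scoped Pointwise

variable {Ω : Type} [Fintype Ω] [DecidableEq Ω]
variable {α : Type} [Fintype α] [DecidableEq α]

lemma R_smul_of (M : Subgroup (Perm α)) (ψ : M →* Perm Ω) (g : M) (ω : Ω) (a b : α)
    (h : R (stab M ψ ω) a b) :
    R (stab M ψ (ψ g ω)) ((g : Perm α) a) ((g : Perm α) b) := by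
  rcases h with rfl | ⟨hab, c, hac, hbc, h⟩
  · exact R.refl _
  · refine R.of (c := (g : Perm α) c) ((g : Perm α).injective.ne hab)
      ((g : Perm α).injective.ne hac) ((g : Perm α).injective.ne hbc) ?_
    rw [mem_stab_smul, ← conj_cyc]
    have : (g : Perm α)⁻¹ * ((g : Perm α) * cyc a b c * (g : Perm α)⁻¹) * (g : Perm α) =
        cyc a b c := by group
    rw [this]
    exact h

lemma inv_smul_self' (M : Subgroup (Perm α)) (ψ : M →* Perm Ω) (g : M) (ω : Ω) :
    ψ g⁻¹ (ψ g ω) = ω := by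
  rw [map_inv, Perm.inv_eq_iff_eq]

lemma coe_inv_apply (M : Subgroup (Perm α)) (g : M) (a : α) :
    ((g⁻¹ : M) : Perm α) ((g : Perm α) a) = a := by
  show (g : Perm α)⁻¹ ((g : Perm α) a) = a
  rw [Perm.inv_eq_iff_eq]

lemma R_smul (M : Subgroup (Perm α)) (ψ : M →* Perm Ω) (g : M) (ω : Ω) (a b : α) :
    R (stab M ψ (ψ g ω)) ((g : Perm α) a) ((g : Perm α) b) ↔ R (stab M ψ ω) a b := by
  refine ⟨fun h => ?_, R_smul_of M ψ g ω a b⟩
  have := R_smul_of M ψ g⁻¹ (ψ g ω) _ _ h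
  rwa [inv_smul_self', coe_inv_apply, coe_inv_apply] at this

lemma Iso_smul (M : Subgroup (Perm α)) (ψ : M →* Perm Ω) (g : M) (ω : Ω) (a : α) :
    Iso (stab M ψ (ψ g ω)) ((g : Perm α) a) ↔ Iso (stab M ψ ω) a := by
  constructor
  · intro h b hb
    have := h ((g : Perm α) b) ((R_smul M ψ g ω a b).mpr hb)
    exact (g : Perm α).injective this
  · intro h b hb
    obtain ⟨b', rfl⟩ := (g : Perm α).surjective b
    rw [h b' ((R_smul M ψ g ω a b').mp hb)]

/-- positions of the nine vertices -/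
def pos9 : ZMod 9 → Fin 3 ⊕ Fin 6 := fun i =>
  if i = 0 then Sum.inl 0 else if i = 1 then Sum.inl 1 else if i = 3 then Sum.inl 2 else
  if i = 2 then Sum.inr 0 else if i = 4 then Sum.inr 1 else if i = 5 then Sum.inr 2 else
  if i = 6 then Sum.inr 3 else if i = 7 then Sum.inr 4 else Sum.inr 5

lemma pos9_inj : ∀ i j, pos9 i = pos9 j → i = j := by decide +kernel

lemma pos9_inl : ∀ i, (∃ j, pos9 i = Sum.inl j) ↔ (i = 0 ∨ i = 1 ∨ i = 3) := by decide +kernel

/-- two classes: not spreading -/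
theorem case_two_classes (M : Subgroup (Perm α)) (hM : alternatingGroup α ≤ M) (ψ : M →* Perm Ω)
    (ω₀ : Ω) (x0 y0 : α) (h1 : ¬ R (stab M ψ ω₀) x0 y0) (h2 : ¬ Iso (stab M ψ ω₀) y0)
    (h3 : ∀ y, R (stab M ψ ω₀) x0 y ∨ R (stab M ψ ω₀) y0 y)
    (x : Fin 7 ↪ {x // R (stab M ψ ω₀) x0 x}) : ¬ Spreading ψ.range := by
  obtain ⟨y1, y2, e1, e2, e3, r1, r2, -⟩ := three_of_not_iso h2
  set H := stab M ψ ω₀ with hH
  -- the classes are disjoint
  have hdis : ∀ u v, R H y0 u → R H x0 v → u ≠ v := by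
    rintro u v hu hv rfl
    exact h1 (hv.trans hu.symm)
  let Y : Fin 3 → α := ![y0, y1, y2]
  have hY : ∀ i, R H y0 (Y i) := by
    intro i
    fin_cases i
    · exact R.refl _
    · exact r1
    · exact r2
  have hYinj : Function.Injective Y := by
    intro i j hij
    fin_cases i <;> fin_cases j <;> simp [Y] at hij ⊢
    · exact e1 hij
    · exact e2 hij
    · exact e1 hij.symm
    · exact e3 hij
    · exact e2 hij.symm
    · exact e3 hij.symm
  let X : Fin 6 → α := fun i => (x (Fin.castSucc i) : α)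
  have hX : ∀ i, R H x0 (X i) := fun i => (x (Fin.castSucc i)).2
  have hXinj : Function.Injective X := by
    intro i j hij
    exact Fin.castSucc_injective _ (x.injective (Subtype.ext hij))
  have hf : Function.Injective (fun i : ZMod 9 => Sum.elim Y X (pos9 i)) := by
    intro i j hij
    apply pos9_inj
    have : Function.Injective (Sum.elim Y X) := by
      apply Function.Injective.sumElim hYinj hXinj
      intro i j
      exact hdis _ _ (hY i) (hX j)
    exact this hij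
  let ι : ZMod 9 ↪ α := ⟨fun i => Sum.elim Y X (pos9 i), hf⟩
  have hι : ∀ i, R H y0 (ι i) ↔ (i = 0 ∨ i = 1 ∨ i = 3) := by
    intro i
    rw [← pos9_inl]
    show R H y0 (Sum.elim Y X (pos9 i)) ↔ _
    rcases hp : pos9 i with j | j
    · simp only [Sum.elim_inl]
      exact ⟨fun _ => ⟨j, rfl⟩, fun _ => hY j⟩
    · simp only [Sum.elim_inr]
      constructor
      · intro h
        exact absurd rfl (hdis _ _ h (hX j))
      · rintro ⟨j', hj'⟩
        exact absurd hj' (by simp)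
  have hout : (x (Fin.last 6) : α) ∉ Set.range ι := by
    rintro ⟨i, hi⟩
    have hi' : Sum.elim Y X (pos9 i) = (x (Fin.last 6) : α) := hi
    rcases hp : pos9 i with j | j
    · rw [hp, Sum.elim_inl] at hi'
      exact hdis _ _ (hY j) (x (Fin.last 6)).2 hi'
    · rw [hp, Sum.elim_inr] at hi'
      have := x.injective (Subtype.ext hi')
      exact (Fin.castSucc_lt_last j).ne this
  have hrot : ∀ i, em ι (rot 9 i) ∈ M := fun i => hM (by
    rw [Equiv.Perm.mem_alternatingGroup, em_sign, sign_rot9])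
  have href : ∀ i, em ι (rfl' 9 i) ∈ M := fun i => hM (by
    rw [Equiv.Perm.mem_alternatingGroup, em_sign, sign_rfl9])
  apply dih 9 M ψ ι hrot href ω₀ {ω | R (stab M ψ ω) y0 y1}
  · exact ⟨ω₀, r1⟩
  · intro huniv
    -- move y1 to the other class
    have hg : swap y1 (X 0) * swap (X 1) (X 2) ∈ M := by
      apply hM
      rw [Equiv.Perm.mem_alternatingGroup, Perm.sign_mul, sign_swap (hdis _ _ r1 (hX 0)),
        sign_swap (hXinj.ne (by decide))]
      rfl
    have h4 : ψ ⟨_, hg⟩ ω₀ ∈ {ω | R (stab M ψ ω) y0 y1} := by rw [huniv]; trivial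
    have h5 : R (stab M ψ (ψ ⟨_, hg⟩ ω₀)) y0 y1 := h4
    have h6 : (swap y1 (X 0) * swap (X 1) (X 2)) y0 = y0 := by
      rw [Perm.mul_apply, swap_apply_of_ne_of_ne (hdis _ _ (R.refl _) (hX 1))
        (hdis _ _ (R.refl _) (hX 2)), swap_apply_of_ne_of_ne e1 (hdis _ _ (R.refl _) (hX 0))]
    have h7 : (swap y1 (X 0) * swap (X 1) (X 2)) (X 0) = y1 := by
      rw [Perm.mul_apply, swap_apply_of_ne_of_ne (hXinj.ne (by decide)) (hXinj.ne (by decide)),
        swap_apply_right]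
    have h8 := (R_smul M ψ ⟨_, hg⟩ ω₀ y0 (X 0)).mp (by
      show R (stab M ψ (ψ ⟨_, hg⟩ ω₀)) ((swap y1 (X 0) * swap (X 1) (X 2)) y0)
        ((swap y1 (X 0) * swap (X 1) (X 2)) (X 0))
      rw [h6, h7]; exact h5)
    exact hdis _ _ h8 (hX 0) rfl
  · intro g
    -- a reflection preserving the pair
    have key : ∃ j, (em ι (rfl' 9 j) ((g : Perm α) y0) = (g : Perm α) y0 ∧
        em ι (rfl' 9 j) ((g : Perm α) y1) = (g : Perm α) y1) ∨
        (em ι (rfl' 9 j) ((g : Perm α) y0) = (g : Perm α) y1 ∧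
        em ι (rfl' 9 j) ((g : Perm α) y1) = (g : Perm α) y0) := by
      by_cases hp : (g : Perm α) y0 ∈ Set.range ι
      · obtain ⟨u, hu⟩ := hp
        by_cases hq : (g : Perm α) y1 ∈ Set.range ι
        · obtain ⟨v, hv⟩ := hq
          obtain ⟨j, hj1, hj2⟩ := nonagon_sym u v
          refine ⟨j, Or.inr ⟨?_, ?_⟩⟩
          · rw [← hu, em_apply, rfl'_apply, hj1, hv]
          · rw [← hv, em_apply, rfl'_apply, hj2, hu]
        · obtain ⟨j, hj⟩ := nonagon_fix u
          refine ⟨j, Or.inl ⟨?_, em_apply_not _ _ _ hq⟩⟩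
          rw [← hu, em_apply, rfl'_apply, hj]
      · by_cases hq : (g : Perm α) y1 ∈ Set.range ι
        · obtain ⟨v, hv⟩ := hq
          obtain ⟨j, hj⟩ := nonagon_fix v
          refine ⟨j, Or.inl ⟨em_apply_not _ _ _ hp, ?_⟩⟩
          rw [← hv, em_apply, rfl'_apply, hj]
        · exact ⟨0, Or.inl ⟨em_apply_not _ _ _ hp, em_apply_not _ _ _ hq⟩⟩
    obtain ⟨j, hj⟩ := key
    refine ⟨j, ?_⟩
    intro ω hω
    have h4 : R (stab M ψ ω) y0 y1 := hω
    have h5 := R_smul_of M ψ ⟨em ι (rfl' 9 j), href j⟩ (ψ g ω) _ _ (R_smul_of M ψ g ω _ _ h4)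
    have h6 : R (stab M ψ (ψ ⟨em ι (rfl' 9 j), href j⟩ (ψ g ω))) ((g : Perm α) y0)
        ((g : Perm α) y1) := by
      rcases hj with ⟨hj1, hj2⟩ | ⟨hj1, hj2⟩
      · have h7 : R (stab M ψ (ψ ⟨em ι (rfl' 9 j), href j⟩ (ψ g ω)))
          (em ι (rfl' 9 j) ((g : Perm α) y0)) (em ι (rfl' 9 j) ((g : Perm α) y1)) := h5
        rwa [hj1, hj2] at h7
      · have h7 : R (stab M ψ (ψ ⟨em ι (rfl' 9 j), href j⟩ (ψ g ω)))
          (em ι (rfl' 9 j) ((g : Perm α) y0)) (em ι (rfl' 9 j) ((g : Perm α) y1)) := h5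
        rw [hj1, hj2] at h7
        exact h7.symm
    have h7 := R_smul_of M ψ g⁻¹ _ _ _ h6
    rw [coe_inv_apply, coe_inv_apply, map_inv] at h7
    exact h7
  · intro j hj
    obtain ⟨u, hu, hu'⟩ := nonagon_asym j
    have h4 : R H y0 (ι u) := (hι u).mpr hu
    have h5 : R H y0 (ι (j - u)) := by
      rcases h3 (ι (j - u)) with h6 | h6
      · exfalso
        have h7 : R H (x (Fin.last 6) : α) (ι (j - u)) := (x (Fin.last 6)).2.symm.trans h6
        have h8 := R.map (H.inv_mem hj) h7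
        have h9 : (em ι (rfl' 9 j))⁻¹ (x (Fin.last 6) : α) = (x (Fin.last 6) : α) := by
          rw [Perm.inv_eq_iff_eq, em_apply_not _ _ _ hout]
        have h10 : (em ι (rfl' 9 j))⁻¹ (ι (j - u)) = ι u := by
          rw [Perm.inv_eq_iff_eq, em_apply, rfl'_apply]
        rw [h9, h10] at h8
        exact hdis _ _ h4 ((x (Fin.last 6)).2.trans h8) rfl
      · exact h6
    exact hu' ((hι _).mp h5)

end Run7.h947
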