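import Pool.Agent.Run7.h947.StepC1

set_option autoImplicit false
set_option linter.unusedSectionVars false
set_option linter.unusedSimpArgs false
set_option linter.unusedVariables false

namespace Run7.h947

open Finset Equiv Equiv.Perm
open scoped Pointwise

variable {Ω : Type} [Fintype Ω] [DecidableEq Ω]
variable {α : Type} [Fintype α] [DecidableEq α]

lemma psi_mul_stab (M : Subgroup (Perm α)) (ψ : M →* Perm Ω) (ω₀ : Ω) (a b : M)
    (h : ((b⁻¹ * a : M) : Perm α) ∈ stab M ψ ω₀) : ψ a ω₀ = ψ b ω₀ := by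
  rw [mem_stab'] at h
  rw [map_mul, map_inv, Perm.mul_apply, Perm.inv_eq_iff_eq] at h
  exact h

lemma commute_of (a b c d : α) (hac : a ≠ c) (had : a ≠ d) (hbc : b ≠ c) (hbd : b ≠ d) :
    Commute (swap a b) (swap c d) := swaps_comm hac had hbc hbd

/-- two isolated points: not spreading -/
theorem case_two_iso (M : Subgroup (Perm α)) (hM : alternatingGroup α ≤ M) (ψ : M →* Perm Ω)
    (ω₀ : Ω) (x0 y1 y2 : α) (hx0 : ¬ Iso (stab M ψ ω₀) x0) (h1 : Iso (stab M ψ ω₀) y1)
    (h2 : Iso (stab M ψ ω₀) y2) (h12 : y1 ≠ y2)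
    (h3 : ∀ y, R (stab M ψ ω₀) x0 y ∨ y = y1 ∨ y = y2)
    (x : Fin 6 ↪ {x // R (stab M ψ ω₀) x0 x}) : ¬ Spreading ψ.range := by
  set H := stab M ψ ω₀ with hH
  have hni : ∀ y x, Iso H y → R H x0 x → y ≠ x := by
    rintro y x hy hr rfl
    have := hy x0 hr.symm
    subst this
    exact hx0 hy
  have hniso : ∀ x, R H x0 x → ¬ Iso H x := fun x hr hi => hni x x hi hr rfl
  let X : Fin 6 → α := fun i => (x i : α)
  have hX : ∀ i, R H x0 (X i) := fun i => (x i).2
  have hXn : ∀ i j, i ≠ j → X i ≠ X j := by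
    intro i j hij h
    exact hij (x.injective (Subtype.ext h))
  have hy1 : ∀ i, y1 ≠ X i := fun i => hni _ _ h1 (hX i)
  have hy2 : ∀ i, y2 ≠ X i := fun i => hni _ _ h2 (hX i)
  have hx1 : ∀ i, X i ≠ y1 := fun i => (hy1 i).symm
  have hx2 : ∀ i, X i ≠ y2 := fun i => (hy2 i).symm
  -- the four transpositions
  set t1 := swap y1 (X 0) with ht1
  set t2 := swap y2 (X 1) with ht2
  set t3 := swap (X 2) (X 3) with ht3
  set t4 := swap (X 4) (X 5) with ht4
  have c12 : Commute t1 t2 := commute_of _ _ _ _ h12 (hy1 1) (hx2 0) (hXn _ _ (by decide))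
  have c13 : Commute t1 t3 := commute_of _ _ _ _ (hy1 2) (hy1 3) (hXn _ _ (by decide))
    (hXn _ _ (by decide))
  have c14 : Commute t1 t4 := commute_of _ _ _ _ (hy1 4) (hy1 5) (hXn _ _ (by decide))
    (hXn _ _ (by decide))
  have c23 : Commute t2 t3 := commute_of _ _ _ _ (hy2 2) (hy2 3) (hXn _ _ (by decide))
    (hXn _ _ (by decide))
  have c24 : Commute t2 t4 := commute_of _ _ _ _ (hy2 4) (hy2 5) (hXn _ _ (by decide))
    (hXn _ _ (by decide))
  have c34 : Commute t3 t4 := commute_of _ _ _ _ (hXn _ _ (by decide)) (hXn _ _ (by decide))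
    (hXn _ _ (by decide)) (hXn _ _ (by decide))
  have s1 : sign t1 = -1 := sign_swap (hy1 0)
  have s2 : sign t2 = -1 := sign_swap (hy2 1)
  have s3 : sign t3 = -1 := sign_swap (hXn _ _ (by decide))
  have s4 : sign t4 = -1 := sign_swap (hXn _ _ (by decide))
  have q1 : t1 * t1 = 1 := swap_mul_self _ _
  have q2 : t2 * t2 = 1 := swap_mul_self _ _
  have q3 : t3 * t3 = 1 := swap_mul_self _ _
  have q4 : t4 * t4 = 1 := swap_mul_self _ _
  have hmem : ∀ s t : Perm α, sign s = -1 → sign t = -1 → s * t ∈ M := by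
    intro s t hs ht
    apply hM
    rw [Equiv.Perm.mem_alternatingGroup, Perm.sign_mul, hs, ht]; rfl
  let u : M := ⟨t1 * t2, hmem _ _ s1 s2⟩
  let v : M := ⟨t1 * t3, hmem _ _ s1 s3⟩
  let w : M := ⟨t2 * t3, hmem _ _ s2 s3⟩
  let v' : M := ⟨t1 * t4, hmem _ _ s1 s4⟩
  let k : M := ⟨t3 * t4, hmem _ _ s3 s4⟩
  have hk : (k : Perm α) ∈ H := by
    apply alt_class x0
    · intro z hz
      have hz' : ∀ i, z ≠ X i := by
        rintro i rfl
        exact hz (hX i)
      show (t3 * t4) z = z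
      rw [Perm.mul_apply, ht4, swap_apply_of_ne_of_ne (hz' _) (hz' _), ht3,
        swap_apply_of_ne_of_ne (hz' _) (hz' _)]
    · show sign (t3 * t4) = 1
      rw [Perm.sign_mul, s3, s4]; rfl
  have hk' : ψ k ω₀ = ω₀ := (mem_stab' M ψ ω₀ k).mp hk
  -- products
  have vu : v * u = w := by
    apply Subtype.ext
    show (t1 * t3) * (t1 * t2) = t2 * t3
    calc (t1 * t3) * (t1 * t2) = (t3 * t1) * (t1 * t2) := by rw [c13.eq]
      _ = t3 * (t1 * t1) * t2 := by group
      _ = t2 * t3 := by rw [q1, mul_one, c23.eq]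
  have vv : v * v = 1 := by
    apply Subtype.ext
    show (t1 * t3) * (t1 * t3) = 1
    calc (t1 * t3) * (t1 * t3) = (t3 * t1) * (t1 * t3) := by rw [c13.eq]
      _ = t3 * (t1 * t1) * t3 := by group
      _ = 1 := by rw [q1, mul_one, q3]
  have vw : v * w = u := by
    apply Subtype.ext
    show (t1 * t3) * (t2 * t3) = t1 * t2
    calc (t1 * t3) * (t2 * t3) = (t1 * t3) * (t3 * t2) := by rw [c23.eq]
      _ = t1 * (t3 * t3) * t2 := by group
      _ = t1 * t2 := by rw [q3, mul_one]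
  have wu : w * u = v := by
    apply Subtype.ext
    show (t2 * t3) * (t1 * t2) = t1 * t3
    calc (t2 * t3) * (t1 * t2) = (t3 * t2) * (t2 * t1) := by rw [c23.eq, c12.eq]
      _ = t3 * (t2 * t2) * t1 := by group
      _ = t1 * t3 := by rw [q2, mul_one, c13.eq]
  have wv : w * v = u := by
    apply Subtype.ext
    show (t2 * t3) * (t1 * t3) = t1 * t2
    calc (t2 * t3) * (t1 * t3) = (t2 * t3) * (t3 * t1) := by rw [c13.eq]
      _ = t2 * (t3 * t3) * t1 := by group
      _ = t1 * t2 := by rw [q3, mul_one, c12.eq]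
  have ww : w * w = 1 := by
    apply Subtype.ext
    show (t2 * t3) * (t2 * t3) = 1
    calc (t2 * t3) * (t2 * t3) = (t3 * t2) * (t2 * t3) := by rw [c23.eq]
      _ = t3 * (t2 * t2) * t3 := by group
      _ = 1 := by rw [q2, mul_one, q3]
  have v'k : v' = v * k := by
    apply Subtype.ext
    show t1 * t4 = (t1 * t3) * (t3 * t4)
    calc t1 * t4 = t1 * (t3 * t3) * t4 := by rw [q3, mul_one]
      _ = _ := by group
  have ku : k * u = u * k := by
    apply Subtype.ext
    show (t3 * t4) * (t1 * t2) = (t1 * t2) * (t3 * t4)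
    exact (((c13.mul_right c14).mul_left (c23.mul_right c24)).symm).eq
  have kv : k * v = v * k := by
    apply Subtype.ext
    show (t3 * t4) * (t1 * t3) = (t1 * t3) * (t3 * t4)
    exact (((c13.mul_right c14).mul_left ((Commute.refl t3).mul_right c34)).symm).eq
  have kw : k * w = w * k := by
    apply Subtype.ext
    show (t3 * t4) * (t2 * t3) = (t2 * t3) * (t3 * t4)
    exact (((c23.mul_right c24).mul_left ((Commute.refl t3).mul_right c34)).symm).eq
  have ap : ∀ a b : M, ψ a (ψ b ω₀) = ψ (a * b) ω₀ := by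
    intro a b
    rw [map_mul, Perm.mul_apply]
  have apk : ∀ a : M, ψ (a * k) ω₀ = ψ a ω₀ := by
    intro a
    rw [← ap, hk']
  -- isolated points
  have isoX : ∀ i, ¬ Iso H (X i) := fun i => hniso _ (hX i)
  have iso_tr : ∀ (a : M) (z z' : α), (a : Perm α) z' = z → (Iso (stab M ψ (ψ a ω₀)) z ↔ Iso H z') := by
    intro a z z' hz
    rw [← hz, Iso_smul]
  have e0 : Iso (stab M ψ ω₀) y1 ∧ Iso (stab M ψ ω₀) y2 := ⟨h1, h2⟩
  have eu1 : ¬ Iso (stab M ψ (ψ u ω₀)) y1 := by
    rw [iso_tr u y1 (X 0)]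
    · exact isoX 0
    · show (t1 * t2) (X 0) = y1
      rw [Perm.mul_apply, ht2, swap_apply_of_ne_of_ne (hx2 _) (hXn _ _ (by decide)), ht1,
        swap_apply_right]
  have eu2 : ¬ Iso (stab M ψ (ψ u ω₀)) y2 := by
    rw [iso_tr u y2 (X 1)]
    · exact isoX 1
    · show (t1 * t2) (X 1) = y2
      rw [Perm.mul_apply, ht2, swap_apply_right, ht1, swap_apply_of_ne_of_ne h12.symm (hy2 _)]
  have ev1 : ¬ Iso (stab M ψ (ψ v ω₀)) y1 := by
    rw [iso_tr v y1 (X 0)]
    · exact isoX 0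
    · show (t1 * t3) (X 0) = y1
      rw [Perm.mul_apply, ht3, swap_apply_of_ne_of_ne (hXn _ _ (by decide)) (hXn _ _ (by decide)),
        ht1, swap_apply_right]
  have ev2 : Iso (stab M ψ (ψ v ω₀)) y2 := by
    rw [iso_tr v y2 y2]
    · exact h2
    · show (t1 * t3) y2 = y2
      rw [Perm.mul_apply, ht3, swap_apply_of_ne_of_ne (hy2 _) (hy2 _),
        ht1, swap_apply_of_ne_of_ne h12.symm (hy2 _)]
  have ew1 : Iso (stab M ψ (ψ w ω₀)) y1 := by
    rw [iso_tr w y1 y1]
    · exact h1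
    · show (t2 * t3) y1 = y1
      rw [Perm.mul_apply, ht3, swap_apply_of_ne_of_ne (hy1 _) (hy1 _),
        ht2, swap_apply_of_ne_of_ne h12 (hy1 _)]
  have ew2 : ¬ Iso (stab M ψ (ψ w ω₀)) y2 := by
    rw [iso_tr w y2 (X 1)]
    · exact isoX 1
    · show (t2 * t3) (X 1) = y2
      rw [Perm.mul_apply, ht3, swap_apply_of_ne_of_ne (hXn _ _ (by decide)) (hXn _ _ (by decide)),
        ht2, swap_apply_right]
  apply not_spreading_of_swap ψ {ω | Iso (stab M ψ ω) y1} {ω₀, ψ u ω₀} {ψ v ω₀, ψ w ω₀}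
  · exact ⟨ω₀, h1⟩
  · intro huniv
    apply eu1
    have : ψ u ω₀ ∈ {ω | Iso (stab M ψ ω) y1} := by rw [huniv]; trivial
    exact this
  · exact ⟨ω₀, Or.inl rfl⟩
  · rw [Set.disjoint_left]
    rintro ω (rfl | rfl) (h | h)
    · rw [h] at hH
      exact ev1 (by rw [← hH]; exact h1)
    · rw [h] at hH
      exact ew2 (by rw [← hH]; exact h2)
    · rw [h] at eu2; exact eu2 ev2
    · have h' : ψ u ω₀ = ψ w ω₀ := h
      rw [h'] at eu1; exact eu1 ew1
  · intro g
    set p := (g : Perm α) y1 with hp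
    -- preserving
    have pres : ∀ τ : M, (τ : Perm α) p = p → ∀ ω ∈ {ω | Iso (stab M ψ ω) y1},
        (ψ g)⁻¹ (ψ τ (ψ g ω)) ∈ {ω | Iso (stab M ψ ω) y1} := by
      intro τ hτ ω hω
      have h4 : Iso (stab M ψ ω) y1 := hω
      have h5 := (Iso_smul M ψ τ (ψ g ω) p).mpr ((Iso_smul M ψ g ω y1).mpr h4)
      rw [hτ] at h5
      have h6 := (Iso_smul M ψ g⁻¹ _ p).mpr h5
      rw [hp, coe_inv_apply, map_inv] at h6
      exact h6
    by_cases hA : p ≠ y1 ∧ p ≠ X 0 ∧ p ≠ X 2 ∧ p ≠ X 3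
    · refine ⟨v, ?_, ?_, pres v ?_⟩
      · rintro ω (rfl | rfl)
        · exact Or.inl rfl
        · right
          show ψ v (ψ u ω₀) = ψ w ω₀
          rw [ap, vu]
      · rintro ω (rfl | rfl)
        · left
          show ψ v (ψ v ω₀) = ω₀
          rw [ap, vv, map_one]; rfl
        · right
          show ψ v (ψ w ω₀) = ψ u ω₀
          rw [ap, vw]
      · show (t1 * t3) p = p
        rw [Perm.mul_apply, ht3, swap_apply_of_ne_of_ne hA.2.2.1 hA.2.2.2, ht1,
          swap_apply_of_ne_of_ne hA.1 hA.2.1]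
    by_cases hB : p ≠ y2 ∧ p ≠ X 1 ∧ p ≠ X 2 ∧ p ≠ X 3
    · refine ⟨w, ?_, ?_, pres w ?_⟩
      · rintro ω (rfl | rfl)
        · exact Or.inr rfl
        · left
          show ψ w (ψ u ω₀) = ψ v ω₀
          rw [ap, wu]
      · rintro ω (rfl | rfl)
        · right
          show ψ w (ψ v ω₀) = ψ u ω₀
          rw [ap, wv]
        · left
          show ψ w (ψ w ω₀) = ω₀
          rw [ap, ww, map_one]; rfl
      · show (t2 * t3) p = p
        rw [Perm.mul_apply, ht3, swap_apply_of_ne_of_ne hB.2.2.1 hB.2.2.2, ht2,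
          swap_apply_of_ne_of_ne hB.1 hB.2.1]
    have hC : p = X 2 ∨ p = X 3 := by
      by_contra hcon
      push Not at hcon
      have hA' : p = y1 ∨ p = X 0 := by
        by_contra h'
        push Not at h'
        exact hA ⟨h'.1, h'.2, hcon.1, hcon.2⟩
      have hB' : p = y2 ∨ p = X 1 := by
        by_contra h'
        push Not at h'
        exact hB ⟨h'.1, h'.2, hcon.1, hcon.2⟩
      rcases hA' with hA' | hA' <;> rcases hB' with hB' | hB'
      · exact h12 (hA'.symm.trans hB')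
      · exact hy1 _ (hA'.symm.trans hB')
      · exact hx2 _ (hA'.symm.trans hB')
      · exact hXn _ _ (by decide) (hA'.symm.trans hB')
    refine ⟨v', ?_, ?_, pres v' ?_⟩
    · rintro ω (h | rfl)
      · left
        rw [h]
        show ψ v' ω₀ = ψ v ω₀
        rw [v'k, apk]
      · right
        show ψ v' (ψ u ω₀) = ψ w ω₀
        rw [ap, v'k, mul_assoc, ku, ← mul_assoc, apk, vu]
    · rintro ω (rfl | rfl)
      · left
        show ψ v' (ψ v ω₀) = ω₀
        rw [ap, v'k, mul_assoc, kv, ← mul_assoc, apk, vv, map_one]; rfl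
      · right
        show ψ v' (ψ w ω₀) = ψ u ω₀
        rw [ap, v'k, mul_assoc, kw, ← mul_assoc, apk, vw]
    · show (t1 * t4) p = p
      have h7 : p ≠ y1 ∧ p ≠ X 0 ∧ p ≠ X 4 ∧ p ≠ X 5 := by
        rcases hC with hC | hC <;> rw [hC] <;>
          exact ⟨hx1 _, hXn _ _ (by decide), hXn _ _ (by decide), hXn _ _ (by decide)⟩
      rw [Perm.mul_apply, ht4, swap_apply_of_ne_of_ne h7.2.2.1 h7.2.2.2, ht1,
        swap_apply_of_ne_of_ne h7.1 h7.2.1]

end Run7.h947
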