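import Pool.Agent.Run7.h947.Bochert
import Pool.Agent.Run7.h947.StepA

set_option autoImplicit false
set_option linter.unusedSectionVars false
set_option linter.unusedSimpArgs false
set_option linter.unusedVariables false

namespace Run7.h947

open Finset Equiv Equiv.Perm
open scoped Pointwise

variable {Ω : Type} [Fintype Ω] [DecidableEq Ω]
variable {α : Type} [Fintype α] [DecidableEq α]

lemma fact5 (a : ℕ) (h : a ≤ 5) : a.factorial ^ 5 ≤ 120 ^ a := by
  interval_cases a <;> decide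

lemma numeric : ∀ k : ℕ, 32 * 120 ^ (2 * k + 33) < (Nat.factorial (k + 17)) ^ 5 ∧
    32 * 120 ^ (2 * k + 34) < (Nat.factorial (k + 17)) ^ 5 := by
  intro k
  induction k with
  | zero => decide +kernel
  | succ k ih =>
    have h1 : Nat.factorial (k + 1 + 17) ^ 5 = (k + 18) ^ 5 * Nat.factorial (k + 17) ^ 5 := by
      rw [show k + 1 + 17 = (k + 17) + 1 by ring, Nat.factorial_succ, mul_pow]
    have h2 : 14400 ≤ (k + 18) ^ 5 := by
      calc 14400 ≤ 18 ^ 5 := by norm_num
        _ ≤ (k + 18) ^ 5 := Nat.pow_le_pow_left (by omega) 5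
    rw [h1]
    constructor
    · calc 32 * 120 ^ (2 * (k + 1) + 33) = 14400 * (32 * 120 ^ (2 * k + 33)) := by ring
        _ < 14400 * Nat.factorial (k + 17) ^ 5 := by
          apply Nat.mul_lt_mul_of_pos_left ih.1 (by norm_num)
        _ ≤ _ := Nat.mul_le_mul_right _ h2
    · calc 32 * 120 ^ (2 * (k + 1) + 34) = 14400 * (32 * 120 ^ (2 * k + 34)) := by ring
        _ < 14400 * Nat.factorial (k + 17) ^ 5 := by
          apply Nat.mul_lt_mul_of_pos_left ih.2 (by norm_num)
        _ ≤ _ := Nat.mul_le_mul_right _ h2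

lemma numeric' (m n : ℕ) (hm : 33 ≤ m) (hn : m ≤ 2 * n) : 32 * 120 ^ m < n.factorial ^ 5 := by
  have key : 32 * 120 ^ m < ((m + 1) / 2).factorial ^ 5 := by
    rcases Nat.even_or_odd' m with ⟨k, rfl | rfl⟩
    · obtain ⟨j, rfl⟩ : ∃ j, k = j + 17 := ⟨k - 17, by omega⟩
      have := (numeric j).2
      rw [show (2 * (j + 17) + 1) / 2 = j + 17 by omega, show 2 * (j + 17) = 2 * j + 34 by ring]
      exact this
    · obtain ⟨j, rfl⟩ : ∃ j, k = j + 16 := ⟨k - 16, by omega⟩
      have := (numeric j).1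
      rw [show (2 * (j + 16) + 1 + 1) / 2 = j + 17 by omega,
        show 2 * (j + 16) + 1 = 2 * j + 33 by ring]
      exact this
  exact lt_of_lt_of_le key (Nat.pow_le_pow_left (Nat.factorial_le (by omega)) 5)

/-- a colouring with few colours and small colour classes -/
lemma exists_colouring (hm : 33 ≤ Fintype.card α) : ∃ c : α → Fin ((Fintype.card α + 1) / 4 - 1),
    ∀ i, Fintype.card {a // c a = i} ≤ 5 := by
  obtain ⟨e⟩ : Nonempty (α ≃ Fin (Fintype.card α)) := ⟨Fintype.equivFin α⟩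
  refine ⟨fun x => ⟨(e x : ℕ) / 5, by have := (e x).2; omega⟩, ?_⟩
  intro i
  have : Fintype.card {a // (⟨(e a : ℕ) / 5, by have := (e a).2; omega⟩ :
      Fin ((Fintype.card α + 1) / 4 - 1)) = i} ≤ Fintype.card (Fin 5) := by
    apply Fintype.card_le_of_injective
      (fun x => (⟨(e x.1 : ℕ) % 5, Nat.mod_lt _ (by norm_num)⟩ : Fin 5))
    intro x y hxy
    have h1 := congrArg Fin.val hxy
    have h2 := congrArg Fin.val x.2
    have h3 := congrArg Fin.val y.2
    simp only at h1 h2 h3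
    apply Subtype.ext
    apply e.injective
    apply Fin.ext
    omega
  simpa using this

lemma card_pres (r : ℕ) (c : α → Fin r) (hc : ∀ i, Fintype.card {a // c a = i} ≤ 5) :
    (Fintype.card {g : Perm α // c ∘ g = c}) ^ 5 ≤ 120 ^ (Fintype.card α) := by
  rw [DomMulAct.stabilizer_card, ← Finset.prod_pow]
  calc ∏ i, (Fintype.card {a // c a = i}).factorial ^ 5 ≤ ∏ i, 120 ^ (Fintype.card {a // c a = i}) := by
        apply Finset.prod_le_prod'
        intro i _
        exact fact5 _ (hc i)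
    _ = 120 ^ (∑ i, Fintype.card {a // c a = i}) := by rw [Finset.prod_pow_eq_pow_sum]
    _ = _ := by
        congr 1
        rw [← Fintype.card_sigma]
        exact Fintype.card_congr (Equiv.sigmaFiberEquiv c)

/-- the alternating group cannot be contained in a point stabiliser -/
lemma alt_not_le (h3 : 3 ≤ Fintype.card α) (M : Subgroup (Perm α)) (hM : alternatingGroup α ≤ M)
    (ψ : M →* Perm Ω) (hinj : Function.Injective ψ) (htr : ∀ ω ω', ∃ g : M, ψ g ω = ω') (ω₀ : Ω)
    (hall : ∀ a b c : α, a ≠ b → a ≠ c → b ≠ c → cyc a b c ∈ stab M ψ ω₀) : False := by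
  have h1 : ∀ σ ∈ alternatingGroup α, σ ∈ stab M ψ ω₀ := by
    intro σ hσ
    apply altX univ (fun a b c _ _ _ => hall a b c)
    · intro x hx
      exact absurd (Finset.mem_univ x) hx
    · rwa [Equiv.Perm.mem_alternatingGroup] at hσ
  have h2 : ∀ σ (hσ : σ ∈ alternatingGroup α), ψ ⟨σ, hM hσ⟩ = 1 := by
    intro σ hσ
    ext ω
    obtain ⟨g, rfl⟩ := htr ω₀ ω
    have h3 : (g : Perm α)⁻¹ * σ * g ∈ alternatingGroup α := by
      rw [Equiv.Perm.mem_alternatingGroup] at hσ ⊢
      rw [Perm.sign_mul, Perm.sign_mul, hσ, mul_one, ← Perm.sign_mul, inv_mul_cancel,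
        Perm.sign_one]
    have h4 := (mem_stab_smul M ψ ω₀ g σ).mpr (h1 _ h3)
    obtain ⟨h5, h6⟩ := h4
    exact h6
  obtain ⟨a, ha⟩ := exists_out (∅ : Finset α) (by simp; omega)
  obtain ⟨b, hb⟩ := exists_out ({a} : Finset α) (by simp; omega)
  obtain ⟨c, hc'⟩ := exists_out ({a, b} : Finset α) (lt_of_le_of_lt Finset.card_le_two (by omega))
  simp only [Finset.mem_insert, Finset.mem_singleton, not_or] at hb hc'
  have hab : a ≠ b := Ne.symm hb
  have hac : a ≠ c := Ne.symm hc'.1
  have hbc : b ≠ c := Ne.symm hc'.2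
  have h5 : cyc a b c ∈ alternatingGroup α := by
    rw [Equiv.Perm.mem_alternatingGroup]
    unfold cyc
    rw [Perm.sign_mul, sign_swap hab, sign_swap hbc]; rfl
  have h6 := h2 _ h5
  rw [← map_one ψ] at h6
  have h7 := hinj h6
  have h8 := congrArg (fun x : M => (x : Perm α) a) h7
  simp only at h8
  rw [cyc_apply_one hab hac] at h8
  exact hab h8.symm

/-- the set-transitive case -/
theorem setTrans_case (hm : 33 ≤ Fintype.card α) (M : Subgroup (Perm α))
    (hM : alternatingGroup α ≤ M) (ψ : M →* Perm Ω) (hinj : Function.Injective ψ)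
    (htr : ∀ ω ω', ∃ g : M, ψ g ω = ω') (ω₀ : Ω) (hs : Spreading ψ.range)
    (h2 : ∀ (c : α → Fin 2) (ω₁ ω₂ : Ω), ∃ g : M, (∀ x, c ((g : Perm α) x) = c x) ∧
      ψ g ω₁ = ω₂) : False := by
  classical
  have hT : ∀ S S' : Finset α, S.card = S'.card → ∃ h ∈ stab M ψ ω₀, ∀ x, x ∈ S → h x ∈ S' := by
    intro S S' hSS
    obtain ⟨g, hg, hgS⟩ := exists_alt_smul (by omega) S S' hSS
    obtain ⟨k, hk, hk'⟩ := h2 (fun x => if x ∈ S' then 1 else 0) (ψ ⟨g, hM hg⟩ ω₀) ω₀
    refine ⟨(k * ⟨g, hM hg⟩ : M), ?_, ?_⟩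
    · rw [mem_stab', map_mul, Perm.mul_apply, hk']
    · intro x hx
      have h3 : g x ∈ S' := by
        rw [← hgS]
        exact Finset.smul_mem_smul_finset hx
      have h4 := hk (g x)
      rw [if_pos h3] at h4
      by_contra h5
      have h6 : (k : Perm α) (g x) ∉ S' := h5
      rw [if_neg h6] at h4
      exact absurd h4 (by decide)
  have hno : ∀ a b c : α, a ≠ b → a ≠ c → b ≠ c → cyc a b c ∉ stab M ψ ω₀ := by
    intro a b c hab hac hbc h
    exact alt_not_le (by omega) M hM ψ hinj htr ω₀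
      (fun x y z hxy hxz hyz => all_cyc hT hab hac hbc h hxy hxz hyz)
  obtain ⟨Γ, hΓ, hΓ'⟩ := bochert hno
  set r := (Fintype.card α + 1) / 4 - 1 with hr
  by_cases hcol : ∀ (c : α → Fin r) (ω₁ ω₂ : Ω), ∃ g : M, (∀ x, c ((g : Perm α) x) = c x) ∧
      ψ g ω₁ = ω₂
  · -- counting
    obtain ⟨c, hc⟩ := exists_colouring hm
    have h3 := card_pres _ c hc
    have h4 : Fintype.card Ω ≤ Fintype.card {g : Perm α // c ∘ g = c} := by
      apply Fintype.card_le_of_surjective
        (fun g : {g : Perm α // c ∘ g = c} => if h : g.1 ∈ M then ψ ⟨g.1, h⟩ ω₀ else ω₀)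
      intro ω
      obtain ⟨g, hg, hg'⟩ := hcol c ω₀ ω
      refine ⟨⟨g, funext hg⟩, ?_⟩
      simp only
      rw [dif_pos g.2]
      exact hg'
    have hΓ2 : 2 ≤ Fintype.card {x // x ∈ Γ} := by
      rw [Fintype.card_coe]; omega
    have : Nontrivial {x // x ∈ Γ} := Fintype.one_lt_card_iff_nontrivial.mp (by omega)
    have h5 : Fintype.card (alternatingGroup {x // x ∈ Γ}) ≤ Fintype.card Ω := by
      have hmem : ∀ σ : alternatingGroup {x // x ∈ Γ},
          (ofSubtype (σ : Perm {x // x ∈ Γ}) : Perm α) ∈ M := by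
        intro σ
        apply hM
        rw [Equiv.Perm.mem_alternatingGroup, sign_ofSubtype]
        exact (Equiv.Perm.mem_alternatingGroup).mp σ.2
      apply Fintype.card_le_of_injective
        (fun σ : alternatingGroup {x // x ∈ Γ} => ψ ⟨ofSubtype (σ : Perm {x // x ∈ Γ}), hmem σ⟩ ω₀)
      intro σ τ hστ
      simp only at hστ
      have h6 : (ofSubtype ((τ⁻¹ * σ : alternatingGroup {x // x ∈ Γ}) : Perm {x // x ∈ Γ}) : Perm α)
          ∈ stab M ψ ω₀ := by
        refine ⟨hmem _, ?_⟩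
        have h7 : (⟨ofSubtype ((τ⁻¹ * σ : alternatingGroup {x // x ∈ Γ}) : Perm {x // x ∈ Γ}),
            hmem _⟩ : M) = ⟨ofSubtype (τ : Perm {x // x ∈ Γ}), hmem τ⟩⁻¹ *
            ⟨ofSubtype (σ : Perm {x // x ∈ Γ}), hmem σ⟩ := by
          apply Subtype.ext
          simp
        rw [h7, map_mul, map_inv, Perm.mul_apply, hστ, Perm.inv_eq_iff_eq]
      have h8 := hΓ' _ h6 (by
        intro x hx
        exact ofSubtype_apply_of_not_mem _ hx)
      have h9 : ((τ⁻¹ * σ : alternatingGroup {x // x ∈ Γ}) : Perm {x // x ∈ Γ}) = 1 := by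
        apply ofSubtype_injective
        rw [h8, map_one]
      have h10 : τ⁻¹ * σ = 1 := Subtype.ext h9
      exact (inv_mul_eq_one.mp h10).symm
    have h6 : 2 * Fintype.card (alternatingGroup {x // x ∈ Γ}) = Γ.card.factorial := by
      rw [two_mul_card_alternatingGroup, Fintype.card_perm, Fintype.card_coe]
    have h7 : Γ.card.factorial ≤ 2 * Fintype.card {g : Perm α // c ∘ g = c} := by
      rw [← h6]; omega
    have h8 : Γ.card.factorial ^ 5 ≤ 32 * 120 ^ (Fintype.card α) := by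
      calc Γ.card.factorial ^ 5 ≤ (2 * Fintype.card {g : Perm α // c ∘ g = c}) ^ 5 :=
            Nat.pow_le_pow_left h7 5
        _ = 32 * (Fintype.card {g : Perm α // c ∘ g = c}) ^ 5 := by rw [mul_pow]; norm_num
        _ ≤ _ := Nat.mul_le_mul_left _ h3
    have h9 := numeric' (Fintype.card α) Γ.card hm hΓ
    omega
  · push Not at hcol
    obtain ⟨c, ω₁, ω₂, hc⟩ := hcol
    obtain ⟨P, hP, hPc⟩ := Finset.exists_subset_card_eq (s := Γ) (n := r + 1) (by omega)
    obtain ⟨Q, hQ, hQc⟩ := Finset.exists_subset_card_eq (s := Γ \ P) (n := r + 1) (by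
      rw [Finset.card_sdiff_of_subset hP]; omega)
    have hPQ : Disjoint P Q := by
      rw [Finset.disjoint_left]
      intro x hx hx'
      exact (Finset.mem_sdiff.mp (hQ hx')).2 hx
    obtain ⟨σ, τ, h3, h4, h5, h6, h7⟩ := colour M hM ψ r c ω₁ ω₂ hc P Q hPQ (by omega) (by omega)
      hs ω₀
    have h8 := hΓ' _ h7 (by
      intro x hx
      rw [Perm.mul_apply, h4 x (fun h => hx (Finset.mem_sdiff.mp (hQ h)).1),
        h3 x (fun h => hx (hP h))])
    have h9 : σ = 1 := by
      ext x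
      by_cases hx : x ∈ P
      · have hx' : x ∉ Q := fun h => (Finset.disjoint_left.mp hPQ) hx h
        have h10 := congrArg (fun f : Perm α => f x) h8
        simp only [Perm.mul_apply] at h10
        rw [h4 x hx'] at h10
        exact h10
      · exact h3 x hx
    rw [h9, Perm.sign_one] at h5
    exact absurd h5 (by decide)

end Run7.h947
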