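import Pool.Agent.Run7.h947.Defs

set_option autoImplicit false
set_option linter.unusedSectionVars false
set_option linter.unusedSimpArgs false
set_option linter.unusedVariables false

namespace Run7.h947

open Finset Equiv Equiv.Perm

variable {Ω : Type} [Fintype Ω] [DecidableEq Ω]

/-- 2-transitive groups are QI -/
theorem QI_of_two_transitive [Nontrivial Ω] (G : Subgroup (Perm Ω))
    (h : ∀ a b c d : Ω, a ≠ b → c ≠ d → ∃ g ∈ G, g a = c ∧ g b = d) : QI G := by
  classical
  constructor
  · obtain ⟨a, b, hab⟩ := exists_pair_ne Ω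
    intro hbot
    have h1 : (fun x => (if x = a then 1 else 0) - (if x = b then 1 else 0) : Ω → ℚ) ∈
        augmentation Ω := by
      show ∑ x, ((if x = a then (1 : ℚ) else 0) - (if x = b then 1 else 0)) = 0
      rw [Finset.sum_sub_distrib]
      simp
    rw [hbot, Submodule.mem_bot] at h1
    have h2 := congrFun h1 a
    simp [hab] at h2
  · intro W hW hinv
    by_cases hbot : W = ⊥
    · left; exact hbot
    right
    obtain ⟨f, hf, hf0⟩ := Submodule.exists_mem_ne_zero_of_ne_bot hbot
    obtain ⟨a, ha⟩ : ∃ a, f a ≠ 0 := by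
      by_contra hcon
      push Not at hcon
      exact hf0 (funext hcon)
    -- the stabiliser
    set S := univ.filter fun g : Perm Ω => g ∈ G ∧ g a = a with hS
    have hmemS : ∀ g, g ∈ S ↔ g ∈ G ∧ g a = a := by
      intro g; rw [hS]; simp
    let F : Ω → ℚ := fun x => ∑ g ∈ S, f (g x)
    have hF : F ∈ W := by
      have : F = ∑ g ∈ S, (fun x => f (g x)) := by
        ext x
        simp [F]
      rw [this]
      apply Submodule.sum_mem
      intro g hg
      exact hinv g ((hmemS g).mp hg).1 f hf
    have hFa : F a = S.card * f a := by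
      show ∑ g ∈ S, f (g a) = S.card * f a
      rw [Finset.sum_congr rfl (fun g hg => by rw [((hmemS g).mp hg).2])]
      rw [Finset.sum_const, nsmul_eq_mul]
    have hScard : (S.card : ℚ) ≠ 0 := by
      have : 1 ∈ S := (hmemS 1).mpr ⟨G.one_mem, rfl⟩
      have h2 : 0 < S.card := Finset.card_pos.mpr ⟨1, this⟩
      exact_mod_cast h2.ne'
    have hFconst : ∀ x y, x ≠ a → y ≠ a → F x = F y := by
      intro x y hx hy
      obtain ⟨k, hk, hka, hkx⟩ := h a y a x (Ne.symm hy) (Ne.symm hx)
      show ∑ g ∈ S, f (g x) = ∑ g ∈ S, f (g y)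
      apply Finset.sum_bij' (fun g _ => g * k) (fun g _ => g * k⁻¹)
      · intro g hg
        rw [hmemS] at hg ⊢
        refine ⟨G.mul_mem hg.1 hk, ?_⟩
        rw [Perm.mul_apply, hka, hg.2]
      · intro g hg
        rw [hmemS] at hg ⊢
        refine ⟨G.mul_mem hg.1 (G.inv_mem hk), ?_⟩
        have : k⁻¹ a = a := by rw [Perm.inv_eq_iff_eq, hka]
        rw [Perm.mul_apply, this, hg.2]
      · intro g hg; simp
      · intro g hg; simp
      · intro g hg
        rw [Perm.mul_apply, hkx]
    obtain ⟨b, hb⟩ := exists_ne a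
    have hsum : ∑ x, F x = 0 := hW hF
    have hsum2 : F a + (Fintype.card Ω - 1 : ℚ) * F b = 0 := by
      rw [← Finset.add_sum_erase univ F (Finset.mem_univ a)] at hsum
      rw [Finset.sum_congr rfl (fun x hx => hFconst x b (Finset.ne_of_mem_erase hx) hb)] at hsum
      rw [Finset.sum_const, Finset.card_erase_of_mem (Finset.mem_univ a), nsmul_eq_mul,
        Finset.card_univ] at hsum
      rw [Nat.cast_sub (Fintype.card_pos), Nat.cast_one] at hsum
      exact hsum
    have hFa0 : F a ≠ 0 := by
      rw [hFa]
      exact mul_ne_zero hScard ha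
    have hFb0 : F b ≠ 0 := by
      intro h0
      rw [h0, mul_zero, add_zero] at hsum2
      exact hFa0 hsum2
    -- F = -F b • (n δ_a - 1)
    have hδ : (fun x => (if x = a then (Fintype.card Ω : ℚ) else 0) - 1 : Ω → ℚ) ∈ W := by
      have : (fun x => (if x = a then (Fintype.card Ω : ℚ) else 0) - 1 : Ω → ℚ) =
          (-(F b)⁻¹) • F := by
        ext x
        rw [Pi.smul_apply, smul_eq_mul]
        by_cases hx : x = a
        · rw [if_pos hx, hx]
          have : F a = -((Fintype.card Ω - 1 : ℚ) * F b) := by linarith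
          rw [this]
          field_simp
        · rw [if_neg hx, hFconst x b hx hb]
          field_simp
          norm_num
      rw [this]
      exact W.smul_mem _ hF
    have hδ' : ∀ c, (fun x => (if x = c then (Fintype.card Ω : ℚ) else 0) - 1 : Ω → ℚ) ∈ W := by
      intro c
      obtain ⟨d, hd⟩ := exists_ne c
      obtain ⟨g, hg, hgc, -⟩ := h c d a b hd.symm hb.symm
      have h1 := hinv g hg _ hδ
      have h2 : (fun x => (if g x = a then (Fintype.card Ω : ℚ) else 0) - 1 : Ω → ℚ) =
          (fun x => (if x = c then (Fintype.card Ω : ℚ) else 0) - 1) := by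
        ext x
        have : g x = a ↔ x = c := by
          rw [← hgc]; exact g.injective.eq_iff
        simp only [this]
      rwa [h2] at h1
    apply le_antisymm hW
    intro φ hφ
    have hφ0 : ∑ x, φ x = 0 := hφ
    have hn : (Fintype.card Ω : ℚ) ≠ 0 := by
      exact_mod_cast (Fintype.card_pos (α := Ω)).ne'
    have : φ = ∑ c, (φ c / Fintype.card Ω) •
        (fun x => (if x = c then (Fintype.card Ω : ℚ) else 0) - 1 : Ω → ℚ) := by
      ext x
      rw [Finset.sum_apply]
      simp only [Pi.smul_apply, smul_eq_mul, mul_sub, mul_one, Finset.sum_sub_distrib]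
      rw [← Finset.sum_div, hφ0, zero_div, sub_zero]
      simp only [mul_ite, mul_zero]
      rw [Finset.sum_ite_eq]
      simp only [Finset.mem_univ, if_true]
      field_simp
    rw [this]
    apply Submodule.sum_mem
    intro c _
    exact W.smul_mem _ (hδ' c)

end Run7.h947
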