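import Pool.Agent.Run7.h947.StepC2
import Pool.Agent.Run7.h947.TwoTrans
import Pool.Agent.Run7.h947.StepD

set_option autoImplicit false
set_option linter.unusedSectionVars false
set_option linter.unusedSimpArgs false
set_option linter.unusedVariables false

namespace Run7.h947

open Finset Equiv Equiv.Perm
open scoped Pointwise

variable {Ω : Type} [Fintype Ω] [DecidableEq Ω]
variable {α : Type} [Fintype α] [DecidableEq α]

/-- two points can be moved to any two points by an even permutation -/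
lemma two_pt (hc : 6 ≤ Fintype.card α) {a b c d : α} (hab : a ≠ b) (hcd : c ≠ d) :
    ∃ σ ∈ alternatingGroup α, σ a = c ∧ σ b = d := by
  -- first some permutation
  obtain ⟨σ, h1, h2⟩ : ∃ σ : Perm α, σ a = c ∧ σ b = d := by
    refine ⟨swap (swap a c b) d * swap a c, ?_, ?_⟩
    · rw [Perm.mul_apply, swap_apply_left]
      apply swap_apply_of_ne_of_ne
      · rw [ne_eq, eq_comm, Equiv.swap_apply_eq_iff, swap_apply_right]
        exact hab.symm
      · exact hcd
    · rw [Perm.mul_apply, swap_apply_left]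
  rcases Int.units_eq_one_or (sign σ) with h3 | h3
  · exact ⟨σ, (Equiv.Perm.mem_alternatingGroup).mpr h3, h1, h2⟩
  · obtain ⟨e, he⟩ := exists_out ({c, d} : Finset α) (lt_of_le_of_lt Finset.card_le_two (by omega))
    obtain ⟨f, hf⟩ := exists_out ({c, d, e} : Finset α)
      (lt_of_le_of_lt Finset.card_le_three (by omega))
    simp only [Finset.mem_insert, Finset.mem_singleton, not_or] at he hf
    refine ⟨swap e f * σ, ?_, ?_, ?_⟩
    · rw [Equiv.Perm.mem_alternatingGroup, Perm.sign_mul, h3, sign_swap (Ne.symm hf.2.2)]; rfl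
    · rw [Perm.mul_apply, h1, swap_apply_of_ne_of_ne (Ne.symm he.1) (Ne.symm hf.1)]
    · rw [Perm.mul_apply, h2, swap_apply_of_ne_of_ne (Ne.symm he.2) (Ne.symm hf.2.1)]

/-- one isolated point -/
theorem case_one_iso (hc : 6 ≤ Fintype.card α) (M : Subgroup (Perm α))
    (hM : alternatingGroup α ≤ M) (ψ : M →* Perm Ω) (htr : ∀ ω ω', ∃ g : M, ψ g ω = ω')
    (ω₀ : Ω) (x0 z : α) (hx0 : ¬ Iso (stab M ψ ω₀) x0) (h1 : Iso (stab M ψ ω₀) z)
    (h3 : ∀ y, R (stab M ψ ω₀) x0 y ∨ y = z) (hs : Spreading ψ.range) :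
    QI ψ.range ∧ Fintype.card Ω = Fintype.card α := by
  set H := stab M ψ ω₀ with hH
  have hni : ∀ x, R H x0 x → z ≠ x := by
    rintro x hr rfl
    have := h1 x0 hr.symm
    subst this
    exact hx0 h1
  have hR : ∀ y, y ≠ z → R H x0 y := by
    intro y hy
    rcases h3 y with h | h
    · exact h
    · exact absurd h hy
  have hiso : ∀ y, Iso H y ↔ y = z := by
    intro y
    constructor
    · intro hy
      by_contra hne
      have := hy x0 (hR y hne).symm
      subst this
      exact hx0 hy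
    · rintro rfl; exact h1
  -- even permutations fixing z
  have heven : ∀ σ : Perm α, σ z = z → sign σ = 1 → σ ∈ H := by
    intro σ h4 h5
    apply alt_class x0 σ _ h5
    intro x hx
    rcases h3 x with h | h
    · exact absurd h hx
    · rw [h, h4]
  by_cases hcase : ∃ h ∈ M, h z = z ∧ h ∉ H
  · -- not spreading
    exfalso
    obtain ⟨h, hhM, hhz, hhH⟩ := hcase
    have hodd : sign h = -1 := by
      rcases Int.units_eq_one_or (sign h) with h4 | h4
      · exact absurd (heven h hhz h4) hhH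
      · exact h4
    have hall : ∀ σ : Perm α, σ ∈ M := by
      intro σ
      rcases Int.units_eq_one_or (sign σ) with h4 | h4
      · exact hM ((Equiv.Perm.mem_alternatingGroup).mpr h4)
      · have h5 : σ * h ∈ M := hM (by
          rw [Equiv.Perm.mem_alternatingGroup, Perm.sign_mul, h4, hodd]; rfl)
        have := M.mul_mem h5 (M.inv_mem hhM)
        simpa [mul_assoc] using this
    have hswap : ∀ c d, c ≠ d → c ≠ z → d ≠ z → swap c d ∉ H := by
      intro c d hcd hcz hdz hmem
      apply hhH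
      have h6 : h * swap c d ∈ H := by
        apply heven
        · rw [Perm.mul_apply, swap_apply_of_ne_of_ne (Ne.symm hcz) (Ne.symm hdz), hhz]
        · rw [Perm.sign_mul, hodd, sign_swap hcd]; rfl
      have := H.mul_mem h6 hmem
      simpa [mul_assoc] using this
    obtain ⟨c, hc1⟩ := exists_out ({z} : Finset α) (by simp; omega)
    obtain ⟨d, hd1⟩ := exists_out ({z, c} : Finset α) (lt_of_le_of_lt Finset.card_le_two (by omega))
    simp only [Finset.mem_insert, Finset.mem_singleton, not_or] at hc1 hd1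
    -- all transpositions act in the same way on ω₀
    have hsame : ∀ c' d' : α, c' ≠ d' → c' ≠ z → d' ≠ z →
        ψ ⟨swap c' d', hall _⟩ ω₀ = ψ ⟨swap c d, hall _⟩ ω₀ := by
      intro c' d' h4 h5 h6
      apply psi_mul_stab
      show (swap c d)⁻¹ * swap c' d' ∈ H
      rw [swap_inv]
      apply heven
      · rw [Perm.mul_apply, swap_apply_of_ne_of_ne (Ne.symm h5) (Ne.symm h6),
          swap_apply_of_ne_of_ne (Ne.symm hc1) (Ne.symm hd1.1)]
      · rw [Perm.sign_mul, sign_swap h4, sign_swap (Ne.symm hd1.2)]; rfl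
    have hsame2 : ∀ c' d' : α, c' ≠ d' → c' ≠ z → d' ≠ z →
        ψ ⟨swap c' d', hall _⟩ (ψ ⟨swap c d, hall _⟩ ω₀) = ω₀ := by
      intro c' d' h4 h5 h6
      rw [← hsame c' d' h4 h5 h6, ← Perm.mul_apply, ← map_mul]
      have : (⟨swap c' d', hall _⟩ * ⟨swap c' d', hall _⟩ : M) = 1 := by
        apply Subtype.ext
        exact swap_mul_self _ _
      rw [this, map_one]; rfl
    refine not_spreading_of_swap ψ {ω | Iso (stab M ψ ω) z} {ω₀} {ψ ⟨swap c d, hall _⟩ ω₀}
      ⟨ω₀, h1⟩ ?_ ⟨ω₀, rfl⟩ ?_ ?_ hs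
    · intro huniv
      have h4 : ψ ⟨swap z c, hall _⟩ ω₀ ∈ {ω | Iso (stab M ψ ω) z} := by rw [huniv]; trivial
      have h5 := (Iso_smul M ψ ⟨swap z c, hall _⟩ ω₀ c).mp (by
        show Iso (stab M ψ (ψ ⟨swap z c, hall _⟩ ω₀)) (swap z c c)
        rw [swap_apply_right]; exact h4)
      exact hc1 ((hiso c).mp h5)
    · rw [Set.disjoint_left]
      rintro ω h4 h5
      have h6 : ω = ω₀ := h4
      have h7 : ω = ψ ⟨swap c d, hall _⟩ ω₀ := h5
      apply hswap c d (Ne.symm hd1.2) hc1 hd1.1
      exact ⟨hall _, by rw [← h7, h6]⟩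
    · intro g
      set p := (g : Perm α) z with hp
      obtain ⟨c', hc2⟩ := exists_out ({z, p} : Finset α)
        (lt_of_le_of_lt Finset.card_le_two (by omega))
      obtain ⟨d', hd2⟩ := exists_out ({z, p, c'} : Finset α)
        (lt_of_le_of_lt Finset.card_le_three (by omega))
      simp only [Finset.mem_insert, Finset.mem_singleton, not_or] at hc2 hd2
      refine ⟨⟨swap c' d', hall _⟩, ?_, ?_, ?_⟩
      · intro ω h4
        have h6 : ω = ω₀ := h4
        rw [h6]
        exact hsame c' d' (Ne.symm hd2.2.2) hc2.1 hd2.1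
      · intro ω h5
        have h7 : ω = ψ ⟨swap c d, hall _⟩ ω₀ := h5
        rw [h7]
        exact hsame2 c' d' (Ne.symm hd2.2.2) hc2.1 hd2.1
      · intro ω hω
        have h4 : Iso (stab M ψ ω) z := hω
        have h5 := (Iso_smul M ψ ⟨swap c' d', hall _⟩ (ψ g ω) p).mpr
          ((Iso_smul M ψ g ω z).mpr h4)
        have h6 : ((⟨swap c' d', hall _⟩ : M) : Perm α) p = p :=
          swap_apply_of_ne_of_ne (Ne.symm hc2.2) (Ne.symm hd2.2.1)
        rw [h6] at h5
        have h7 := (Iso_smul M ψ g⁻¹ _ p).mpr h5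
        rw [hp, coe_inv_apply, map_inv] at h7
        exact h7
  · -- natural action
    push Not at hcase
    -- every point has a unique isolated point
    have hpt : ∀ ω, ∃ g : M, ψ g ω₀ = ω := fun ω => htr ω₀ ω
    have hinj : ∀ (g g' : M), (g : Perm α) z = (g' : Perm α) z → ψ g ω₀ = ψ g' ω₀ := by
      intro g g' h4
      apply psi_mul_stab
      apply hcase
      · exact (g'⁻¹ * g : M).2
      · show (g' : Perm α)⁻¹ ((g : Perm α) z) = z
        rw [h4, Perm.inv_eq_iff_eq]
    have : Nontrivial Ω := by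
      obtain ⟨c, hc1⟩ := exists_out ({z} : Finset α) (by simp; omega)
      obtain ⟨d, hd1⟩ := exists_out ({z, c} : Finset α)
        (lt_of_le_of_lt Finset.card_le_two (by omega))
      simp only [Finset.mem_insert, Finset.mem_singleton, not_or] at hc1 hd1
      obtain ⟨σ, hσ, h4, h5⟩ := two_pt hc (Ne.symm hc1 : z ≠ c) (Ne.symm hd1.2 : c ≠ d)
      refine ⟨⟨ω₀, ψ ⟨σ, hM hσ⟩ ω₀, ?_⟩⟩
      intro heq
      have h6 := (Iso_smul M ψ ⟨σ, hM hσ⟩ ω₀ z).mpr h1
      rw [← heq] at h6
      have h7 : Iso H (σ z) := h6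
      rw [h4] at h7
      exact hc1 ((hiso c).mp h7)
    refine ⟨QI_of_two_transitive _ ?_, ?_⟩
    swap
    · have hex : ∀ y : α, ∃ g : M, (g : Perm α) z = y := by
        intro y
        obtain ⟨c, hc1⟩ := exists_out ({z, y} : Finset α)
          (lt_of_le_of_lt Finset.card_le_two (by omega))
        simp only [Finset.mem_insert, Finset.mem_singleton, not_or] at hc1
        obtain ⟨σ, hσ, h4, -⟩ := two_pt hc (Ne.symm hc1.1 : z ≠ c) (Ne.symm hc1.2 : y ≠ c)
        exact ⟨⟨σ, hM hσ⟩, h4⟩
      choose γ hγ using hex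
      symm
      apply Fintype.card_of_bijective (f := fun y => ψ (γ y) ω₀)
      constructor
      · intro y y' hyy
        simp only at hyy
        have h4 := (Iso_smul M ψ (γ y) ω₀ z).mpr h1
        rw [hγ, hyy] at h4
        have h5 : ((γ y' : M) : Perm α) ((((γ y')⁻¹ : M) : Perm α) y) = y := by
          show (γ y' : Perm α) ((γ y' : Perm α)⁻¹ y) = y
          simp
        rw [← h5, Iso_smul] at h4
        have h6 := (hiso _).mp h4
        rw [h6, hγ] at h5
        exact h5.symm
      · intro ω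
        obtain ⟨g, rfl⟩ := hpt ω
        exact ⟨(g : Perm α) z, hinj _ _ (hγ _)⟩
    intro a b c d hab hcd
    obtain ⟨ga, rfl⟩ := hpt a
    obtain ⟨gb, rfl⟩ := hpt b
    obtain ⟨gc, rfl⟩ := hpt c
    obtain ⟨gd, rfl⟩ := hpt d
    have hab' : (ga : Perm α) z ≠ (gb : Perm α) z := fun h => hab (hinj _ _ h)
    have hcd' : (gc : Perm α) z ≠ (gd : Perm α) z := fun h => hcd (hinj _ _ h)
    obtain ⟨σ, hσ, h4, h5⟩ := two_pt hc hab' hcd'
    refine ⟨ψ ⟨σ, hM hσ⟩, ⟨_, rfl⟩, ?_, ?_⟩
    · rw [← Perm.mul_apply, ← map_mul]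
      exact hinj _ _ h4
    · rw [← Perm.mul_apply, ← map_mul]
      exact hinj _ _ h5

/-- all faithful transitive actions of `S_m` and `A_m`, `m ≥ 33` -/
theorem main (hm : 33 ≤ Fintype.card α) (M : Subgroup (Perm α)) (hM : alternatingGroup α ≤ M)
    (ψ : M →* Perm Ω) (hinj : Function.Injective ψ) (htr : ∀ ω ω', ∃ g : M, ψ g ω = ω')
    (ω₀ : Ω) (hs : Spreading ψ.range) : QI ψ.range ∧ Fintype.card Ω = Fintype.card α := by
  classical
  by_cases h2 : ∀ (c : α → Fin 2) (ω₁ ω₂ : Ω), ∃ g : M, (∀ x, c ((g : Perm α) x) = c x) ∧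
      ψ g ω₁ = ω₂
  · exact (setTrans_case hm M hM ψ hinj htr ω₀ hs h2).elim
  push Not at h2
  obtain ⟨c, ω₁, ω₂, hc⟩ := h2
  set H := stab M ψ ω₀ with hH
  have hsix : Six H := by
    intro a b d e f k hnd
    rw [nodup6] at hnd
    obtain ⟨⟨h1, h2, h3, h4, h5⟩, ⟨h6, h7, h8, h9⟩, ⟨h10, h11, h12⟩, ⟨h13, h14⟩, h15⟩ := hnd
    have hcard : ∀ u v w : α, u ≠ v → u ≠ w → v ≠ w → ({u, v, w} : Finset α).card = 3 := by
      intro u v w h1 h2 h3
      rw [Finset.card_eq_three]
      exact ⟨u, v, w, h1, h2, h3, rfl⟩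
    obtain ⟨σ, τ, k1, k2, k3, k4, k5⟩ := colour M hM ψ 2 c ω₁ ω₂ hc {a, b, d} {e, f, k} (by
      rw [Finset.disjoint_left]
      intro x hx hx'
      simp only [Finset.mem_insert, Finset.mem_singleton] at hx hx'
      rcases hx with rfl | rfl | rfl <;> rcases hx' with h | h | h
      · exact h3 h
      · exact h4 h
      · exact h5 h
      · exact h7 h
      · exact h8 h
      · exact h9 h
      · exact h10 h
      · exact h11 h
      · exact h12 h) (by rw [hcard _ _ _ h1 h2 h6]; norm_num)
      (by rw [hcard _ _ _ h13 h14 h15]; norm_num) hs ω₀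
    exact ⟨σ, τ, odd3 h1 h2 h6 σ k1 k3, odd3 h13 h14 h15 τ k2 k4, k5⟩
  obtain ⟨x0, hx0, hstr⟩ := structure_of_six hsix (by omega)
  rcases hstr with hA | ⟨y0, hy0, hy0', hB⟩ | ⟨y1, y2, hy1, hy2, hC⟩
  · -- everything
    exfalso
    exact alt_not_le (by omega) M hM ψ hinj htr ω₀
      (fun a b c hab hac hbc => R.cyc_mem ((hA a).symm.trans (hA b)) ((hA a).symm.trans (hA c))
        hab hac hbc)
  · -- two classes
    exfalso
    have hcard : Fintype.card α ≤ Fintype.card {x // R H x0 x} + Fintype.card {x // R H y0 x} := by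
      rw [Fintype.card_subtype, Fintype.card_subtype, ← Finset.card_univ]
      refine le_trans (Finset.card_le_card ?_) (Finset.card_union_le _ _)
      intro y _
      rw [Finset.mem_union, Finset.mem_filter, Finset.mem_filter]
      rcases hB y with h | h
      · exact Or.inl ⟨Finset.mem_univ _, h⟩
      · exact Or.inr ⟨Finset.mem_univ _, h⟩
    by_cases h7 : 7 ≤ Fintype.card {x // R H x0 x}
    · obtain ⟨x⟩ : Nonempty (Fin 7 ↪ {x // R H x0 x}) := by
        apply Function.Embedding.nonempty_of_card_le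
        simpa using h7
      exact case_two_classes M hM ψ ω₀ x0 y0 hy0 hy0' hB x hs
    · obtain ⟨x⟩ : Nonempty (Fin 7 ↪ {x // R H y0 x}) := by
        apply Function.Embedding.nonempty_of_card_le
        rw [Fintype.card_fin]
        omega
      exact case_two_classes M hM ψ ω₀ y0 x0 (fun h => hy0 h.symm) hx0
        (fun y => (hB y).symm) x hs
  · by_cases h12 : y1 = y2
    · subst h12
      apply case_one_iso (by omega) M hM ψ htr ω₀ x0 y1 hx0 hy1 _ hs
      intro y
      rcases hC y with h | h | h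
      · exact Or.inl h
      · exact Or.inr h
      · exact Or.inr h
    · exfalso
      have hcard : Fintype.card α ≤ Fintype.card {x // R H x0 x} + 2 := by
        rw [Fintype.card_subtype, ← Finset.card_univ]
        have h2 : ({y1, y2} : Finset α).card ≤ 2 := Finset.card_le_two
        refine le_trans (Finset.card_le_card (t := (univ.filter fun x => R H x0 x) ∪ {y1, y2}) ?_)
          (le_trans (Finset.card_union_le _ _) (by omega))
        intro y _
        rw [Finset.mem_union, Finset.mem_filter, Finset.mem_insert, Finset.mem_singleton]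
        rcases hC y with h | h
        · exact Or.inl ⟨Finset.mem_univ _, h⟩
        · exact Or.inr h
      obtain ⟨x⟩ : Nonempty (Fin 6 ↪ {x // R H x0 x}) := by
        apply Function.Embedding.nonempty_of_card_le
        rw [Fintype.card_fin]
        omega
      exact case_two_iso M hM ψ ω₀ x0 y1 y2 hx0 hy1 hy2 h12 hC x hs

end Run7.h947
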