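import Pool.Agent.Run7.h947.StepB

set_option autoImplicit false
set_option linter.unusedSectionVars false
set_option linter.unusedSimpArgs false
set_option linter.unusedVariables false

namespace Run7.h947

open Finset Equiv Equiv.Perm

variable {α : Type} [Fintype α] [DecidableEq α]

/-- `a` and `b` are equal or lie on a common `3`-cycle of `H` -/
def R (H : Subgroup (Perm α)) (a b : α) : Prop :=
  a = b ∨ (a ≠ b ∧ ∃ c, a ≠ c ∧ b ≠ c ∧ cyc a b c ∈ H)

variable {H : Subgroup (Perm α)}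

lemma R.refl (a : α) : R H a a := Or.inl rfl

lemma R.of {a b c : α} (hab : a ≠ b) (hac : a ≠ c) (hbc : b ≠ c) (h : cyc a b c ∈ H) :
    R H a b := Or.inr ⟨hab, c, hac, hbc, h⟩

lemma R.symm {a b : α} (h : R H a b) : R H b a := by
  rcases h with rfl | ⟨hab, c, hac, hbc, h⟩
  · exact R.refl _
  · apply R.of hab.symm hbc hac
    rw [← cyc_inv hab hac hbc]
    exact H.inv_mem h

lemma R.three {a b c : α} (hab : a ≠ b) (hac : a ≠ c) (hbc : b ≠ c) (h : cyc a b c ∈ H) :
    R H a c := by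
  apply R.symm
  apply R.of hac.symm hbc.symm hab
  rw [← cyc_rot hbc hab.symm hac.symm, ← cyc_rot hab hac hbc]
  exact h

lemma R.map {a b h : _} (hh : h ∈ H) (hab : R H a b) : R H (h a) (h b) := by
  rcases hab with rfl | ⟨hab, c, hac, hbc, h'⟩
  · exact R.refl _
  · refine R.of (c := h c) (h.injective.ne hab) (h.injective.ne hac) (h.injective.ne hbc) ?_
    rw [← conj_cyc]
    exact conj_mem hh h'

lemma R.trans {a b d : α} (h1 : R H a b) (h2 : R H b d) : R H a d := by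
  rcases h1 with rfl | ⟨hab, c, hac, hbc, h⟩
  · exact h2
  rcases h2 with rfl | ⟨hbd, e, hbe, hde, h'⟩
  · exact R.of hab hac hbc h
  by_cases had : a = d
  · subst had; exact R.refl _
  by_cases hdc : d = c
  · subst hdc; exact R.three hab hac hbc h
  have h3 := R.map (H.inv_mem h) (R.of hbd hbe hde h')
  rwa [cyc_inv hab hac hbc, cyc_apply_one hab.symm hbc,
    cyc_apply_of_ne (fun h => hbd h.symm) (fun h => had h.symm) hdc] at h3

/-- all 3-cycles inside a class are in `H` -/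
lemma R.cyc_mem {a b d : α} (h1 : R H a b) (h2 : R H a d) (hab : a ≠ b) (had : a ≠ d)
    (hbd : b ≠ d) : cyc a b d ∈ H := by
  rcases h1 with h1 | ⟨-, c, hac, hbc, h⟩
  · exact absurd h1 hab
  by_cases hcd : c = d
  · subst hcd; exact h
  have hac' : R H a c := R.three hab hac hbc h
  have h3 : R H c d := hac'.symm.trans h2
  rcases h3 with h3 | ⟨-, e, hce, hde, h'⟩
  · exact absurd h3 hcd
  by_cases hea : e = a
  · subst hea
    have h4 := conj_mem h' h
    rw [conj_cyc, cyc_apply_three, cyc_apply_of_ne hbc hbd hab.symm, cyc_apply_one hcd hce] at h4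
    rw [← cyc_mul_one hab hac had hbc hbd hcd]
    exact H.mul_mem h h4
  by_cases heb : e = b
  · subst heb
    have h4 := conj_mem h' h
    rw [conj_cyc, cyc_apply_three, cyc_apply_of_ne hac had hab, cyc_apply_one hcd hce] at h4
    rw [← cyc_mul_two hab hac had hbc hbd hcd]
    exact H.mul_mem h4 h
  have h4 := conj_mem h' h
  rwa [conj_cyc, cyc_apply_one hcd hce, cyc_apply_of_ne hac had (Ne.symm hea),
    cyc_apply_of_ne hbc hbd (Ne.symm heb)] at h4

/-- `a` is isolated -/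
def Iso (H : Subgroup (Perm α)) (a : α) : Prop := ∀ b, R H a b → a = b

/-- being of the same type -/
def T (H : Subgroup (Perm α)) (a b : α) : Prop := R H a b ∨ (Iso H a ∧ Iso H b)

lemma T.symm {a b : α} (h : T H a b) : T H b a := by
  rcases h with h | ⟨h, h'⟩
  · exact Or.inl h.symm
  · exact Or.inr ⟨h', h⟩

lemma three_of_not_iso {a : α} (h : ¬ Iso H a) : ∃ x y, a ≠ x ∧ a ≠ y ∧ x ≠ y ∧ R H a x ∧ R H a y ∧
    cyc a x y ∈ H := by
  unfold Iso at h
  push Not at h
  obtain ⟨b, hb, hab⟩ := h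
  rcases hb with hb | ⟨-, c, hac, hbc, h'⟩
  · exact absurd hb hab
  · exact ⟨b, c, hab, hac, hbc, R.of hab hac hbc h', R.three hab hac hbc h', h'⟩

lemma double_R {a b c d : α} (hab : a ≠ b) (hac : a ≠ c) (had : a ≠ d) (hbc : b ≠ c) (hbd : b ≠ d)
    (hcd : c ≠ d) (h : swap a b * swap c d ∈ H) (ha : ¬ Iso H a) : R H a b := by
  obtain ⟨x, y, hax, hay, hxy, h1, h2, -⟩ := three_of_not_iso ha
  have ea : (swap a b * swap c d) a = b := by
    rw [Perm.mul_apply, swap_apply_of_ne_of_ne hac had, swap_apply_left]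
  have ec : (swap a b * swap c d) c = d := by
    rw [Perm.mul_apply, swap_apply_left, swap_apply_of_ne_of_ne had.symm hbd.symm]
  have ed : (swap a b * swap c d) d = c := by
    rw [Perm.mul_apply, swap_apply_right, swap_apply_of_ne_of_ne hac.symm hbc.symm]
  have ex : ∀ z, z ≠ a → z ≠ b → z ≠ c → z ≠ d → (swap a b * swap c d) z = z := by
    intro z h1 h2 h3 h4
    rw [Perm.mul_apply, swap_apply_of_ne_of_ne h3 h4, swap_apply_of_ne_of_ne h1 h2]
  have key : ∀ z, a ≠ z → R H a z → z ≠ c → z ≠ d → R H a b := by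
    intro z h3 h4 h5 h6
    by_cases h7 : z = b
    · rwa [← h7]
    · have h8 := R.map h h4
      rw [ea, ex z h3.symm h7 h5 h6] at h8
      exact h4.trans h8.symm
  by_cases hx : x = c ∨ x = d
  · by_cases hy : y = c ∨ y = d
    · have h8 := R.map h h1
      rw [ea] at h8
      rcases hx with rfl | rfl
      · rcases hy with rfl | rfl
        · exact absurd rfl hxy
        · rw [ec] at h8
          exact h2.trans h8.symm
      · rcases hy with rfl | rfl
        · rw [ed] at h8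
          exact h2.trans h8.symm
        · exact absurd rfl hxy
    · push Not at hy
      exact key y hay h2 hy.1 hy.2
  · push Not at hx
    exact key x hax h1 hx.1 hx.2

lemma double_T {a b c d : α} (hab : a ≠ b) (hac : a ≠ c) (had : a ≠ d) (hbc : b ≠ c) (hbd : b ≠ d)
    (hcd : c ≠ d) (h : swap a b * swap c d ∈ H) : T H a b := by
  by_cases ha : Iso H a
  · by_cases hb : Iso H b
    · exact Or.inr ⟨ha, hb⟩
    · left
      apply R.symm
      rw [swap_comm] at h
      exact double_R hab.symm hbc hbd hac had hcd h hb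
  · left
    exact double_R hab hac had hbc hbd hcd h ha

/-- the six point condition -/
def Six (H : Subgroup (Perm α)) : Prop := ∀ a b c d e f : α, [a, b, c, d, e, f].Nodup →
  ∃ s t : Perm α, (s = swap a b ∨ s = swap a c ∨ s = swap b c) ∧
    (t = swap d e ∨ t = swap d f ∨ t = swap e f) ∧ s * t ∈ H

lemma nodup6 {a b c d e f : α} : [a, b, c, d, e, f].Nodup ↔ (a ≠ b ∧ a ≠ c ∧ a ≠ d ∧ a ≠ e ∧ a ≠ f) ∧
    (b ≠ c ∧ b ≠ d ∧ b ≠ e ∧ b ≠ f) ∧ (c ≠ d ∧ c ≠ e ∧ c ≠ f) ∧ (d ≠ e ∧ d ≠ f) ∧ e ≠ f := by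
  simp [List.nodup_cons, not_or]
  
lemma six_T (hS : Six H) {a b c d e f : α} (h : [a, b, c, d, e, f].Nodup) :
    T H a b ∨ T H a c ∨ T H b c := by
  obtain ⟨s, t, hs, ht, hst⟩ := hS a b c d e f h
  rw [nodup6] at h
  obtain ⟨⟨h1, h2, h3, h4, h5⟩, ⟨h6, h7, h8, h9⟩, ⟨h10, h11, h12⟩, ⟨h13, h14⟩, h15⟩ := h
  rcases hs with rfl | rfl | rfl
  · left
    rcases ht with rfl | rfl | rfl
    · exact double_T h1 h3 h4 h7 h8 h13 hst
    · exact double_T h1 h3 h5 h7 h9 h14 hst
    · exact double_T h1 h4 h5 h8 h9 h15 hst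
  · right; left
    rcases ht with rfl | rfl | rfl
    · exact double_T h2 h3 h4 h10 h11 h13 hst
    · exact double_T h2 h3 h5 h10 h12 h14 hst
    · exact double_T h2 h4 h5 h11 h12 h15 hst
  · right; right
    rcases ht with rfl | rfl | rfl
    · exact double_T h6 h7 h8 h10 h11 h13 hst
    · exact double_T h6 h7 h9 h10 h12 h14 hst
    · exact double_T h6 h8 h9 h11 h12 h15 hst

/-- a point outside a small finset -/
lemma exists_out (F : Finset α) (h : F.card < Fintype.card α) : ∃ x, x ∉ F := by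
  by_contra hcon
  push Not at hcon
  have : F = univ := by ext x; simp [hcon x]
  rw [this, Finset.card_univ] at h
  exact lt_irrefl _ h

/-- three types are impossible -/
lemma two_types (hS : Six H) (hc : 6 ≤ Fintype.card α) {a b c : α} (h1 : ¬ T H a b)
    (h2 : ¬ T H a c) (h3 : ¬ T H b c) : False := by
  have hab : a ≠ b := by rintro rfl; exact h1 (Or.inl (R.refl _))
  have hac : a ≠ c := by rintro rfl; exact h2 (Or.inl (R.refl _))
  have hbc : b ≠ c := by rintro rfl; exact h3 (Or.inl (R.refl _))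
  obtain ⟨d, hd⟩ := exists_out ({a, b, c} : Finset α) (lt_of_le_of_lt Finset.card_le_three (by omega))
  obtain ⟨e, he⟩ := exists_out ({a, b, c, d} : Finset α)
    (lt_of_le_of_lt Finset.card_le_four (by omega))
  obtain ⟨f, hf⟩ := exists_out ({a, b, c, d, e} : Finset α)
    (lt_of_le_of_lt Finset.card_le_five (by omega))
  simp only [Finset.mem_insert, Finset.mem_singleton, not_or] at hd he hf
  have : [a, b, c, d, e, f].Nodup := by
    rw [nodup6]
    refine ⟨⟨hab, hac, Ne.symm hd.1, Ne.symm he.1, Ne.symm hf.1⟩,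
      ⟨hbc, Ne.symm hd.2.1, Ne.symm he.2.1, Ne.symm hf.2.1⟩,
      ⟨Ne.symm hd.2.2, Ne.symm he.2.2.1, Ne.symm hf.2.2.1⟩, ⟨Ne.symm he.2.2.2, Ne.symm hf.2.2.2.1⟩,
      Ne.symm hf.2.2.2.2⟩
  rcases six_T hS this with h | h | h
  · exact h1 h
  · exact h2 h
  · exact h3 h

/-- there is a `3`-cycle -/
lemma exists_not_iso (hS : Six H) (hc : 12 ≤ Fintype.card α) : ∃ a, ¬ Iso H a := by
  by_contra hcon
  push Not at hcon
  have hno : ∀ a b c : α, a ≠ b → a ≠ c → b ≠ c → cyc a b c ∉ H := by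
    intro a b c hab hac hbc h
    exact hab (hcon a b (R.of hab hac hbc h))
  -- uniqueness
  have huniq : ∀ a b c : α, ∃ d0, ∀ d, a ≠ c → b ≠ c → a ≠ d → b ≠ d → c ≠ d →
      swap a b * swap c d ∈ H → d = d0 := by
    intro a b c
    by_cases h : ∃ d, a ≠ c ∧ b ≠ c ∧ a ≠ d ∧ b ≠ d ∧ c ≠ d ∧ swap a b * swap c d ∈ H
    · obtain ⟨d0, h1, h2, h3, h4, h5, h6⟩ := h
      refine ⟨d0, ?_⟩
      intro d h1' h2' h3' h4' h5' h6'
      by_contra hne
      have := H.mul_mem h6' h6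
      rw [double_mul h1 h2 h3' h4'] at this
      exact hno d c d0 h5'.symm hne h5 this
    · push Not at h
      refine ⟨a, ?_⟩
      intro d h1' h2' h3' h4' h5' h6'
      exact absurd h6' (h d h1' h2' h3' h4' h5')
  obtain ⟨a, ha⟩ := exists_out (∅ : Finset α) (by simp; omega)
  obtain ⟨b, hb⟩ := exists_out ({a} : Finset α) (by simp; omega)
  obtain ⟨c, hc'⟩ := exists_out ({a, b} : Finset α) (lt_of_le_of_lt Finset.card_le_two (by omega))
  obtain ⟨d, hd⟩ := exists_out ({a, b, c} : Finset α) (lt_of_le_of_lt Finset.card_le_three (by omega))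
  obtain ⟨u1, hu1⟩ := huniq a b d
  obtain ⟨u2, hu2⟩ := huniq a c d
  obtain ⟨u3, hu3⟩ := huniq b c d
  obtain ⟨e, he⟩ := exists_out ({a, b, c, d} ∪ {u1, u2, u3} : Finset α) (by
    refine lt_of_le_of_lt (Finset.card_union_le _ _) ?_
    have h1 : ({a, b, c, d} : Finset α).card ≤ 4 := Finset.card_le_four
    have h2 : ({u1, u2, u3} : Finset α).card ≤ 3 := Finset.card_le_three
    omega)
  obtain ⟨v1, hv1⟩ := huniq a b e
  obtain ⟨v2, hv2⟩ := huniq a c e
  obtain ⟨v3, hv3⟩ := huniq b c e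
  obtain ⟨f, hf⟩ := exists_out (({a, b, c, d} ∪ {u1, u2, u3}) ∪ {e, v1, v2, v3} : Finset α) (by
    refine lt_of_le_of_lt (Finset.card_union_le _ _) ?_
    have h0 : (({a, b, c, d} ∪ {u1, u2, u3}) : Finset α).card ≤ 7 := by
      refine le_trans (Finset.card_union_le _ _) ?_
      have h1 : ({a, b, c, d} : Finset α).card ≤ 4 := Finset.card_le_four
      have h2 : ({u1, u2, u3} : Finset α).card ≤ 3 := Finset.card_le_three
      omega
    have h3 : ({e, v1, v2, v3} : Finset α).card ≤ 4 := Finset.card_le_four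
    omega)
  simp only [Finset.mem_union, Finset.mem_insert, Finset.mem_singleton, not_or] at hb hc' hd he hf
  obtain ⟨⟨e1, e2, e3, e4⟩, e5, e6, e7⟩ := he
  obtain ⟨⟨⟨f1, f2, f3, f4⟩, f5, f6, f7⟩, f8, f9, f10, f11⟩ := hf
  obtain ⟨d1, d2, d3⟩ := hd
  obtain ⟨c1, c2⟩ := hc'
  have hnd : [a, b, c, d, e, f].Nodup := by
    rw [nodup6]
    exact ⟨⟨Ne.symm hb, Ne.symm c1, Ne.symm d1, Ne.symm e1, Ne.symm f1⟩,
      ⟨Ne.symm c2, Ne.symm d2, Ne.symm e2, Ne.symm f2⟩, ⟨Ne.symm d3, Ne.symm e3, Ne.symm f3⟩,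
      ⟨Ne.symm e4, Ne.symm f4⟩, Ne.symm f8⟩
  obtain ⟨s, t, hs, ht, hst⟩ := hS a b c d e f hnd
  rw [nodup6] at hnd
  obtain ⟨⟨h1, h2, h3, h4, h5⟩, ⟨h6, h7, h8, h9⟩, ⟨h10, h11, h12⟩, ⟨h13, h14⟩, h15⟩ := hnd
  rcases hs with rfl | rfl | rfl
  · rcases ht with rfl | rfl | rfl
    · exact e5 (hu1 e h3 h7 h4 h8 h13 hst)
    · exact f5 (hu1 f h3 h7 h5 h9 h14 hst)
    · exact f9 (hv1 f h4 h8 h5 h9 h15 hst)
  · rcases ht with rfl | rfl | rfl
    · exact e6 (hu2 e h3 h10 h4 h11 h13 hst)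
    · exact f6 (hu2 f h3 h10 h5 h12 h14 hst)
    · exact f10 (hv2 f h4 h11 h5 h12 h15 hst)
  · rcases ht with rfl | rfl | rfl
    · exact e7 (hu3 e h7 h10 h8 h11 h13 hst)
    · exact f7 (hu3 f h7 h10 h9 h12 h14 hst)
    · exact f11 (hv3 f h8 h11 h9 h12 h15 hst)

end Run7.h947
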