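import Pool.Agent.Run7.h947.Struct

set_option autoImplicit false
set_option linter.unusedSectionVars false
set_option linter.unusedSimpArgs false
set_option linter.unusedVariables false

namespace Run7.h947

open Finset Equiv Equiv.Perm
open scoped Pointwise

variable {α : Type} [Fintype α] [DecidableEq α]
variable {H : Subgroup (Perm α)}

lemma six_use (hS : Six H) {a b c d e f : α} (h : [a, b, c, d, e, f].Nodup) (hac : ¬ T H a c)
    (hbc : ¬ T H b c) (hde : ¬ T H d e) (hdf : ¬ T H d f) : swap a b * swap e f ∈ H := by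
  obtain ⟨s, t, hs, ht, hst⟩ := hS a b c d e f h
  rw [nodup6] at h
  obtain ⟨⟨h1, h2, h3, h4, h5⟩, ⟨h6, h7, h8, h9⟩, ⟨h10, h11, h12⟩, ⟨h13, h14⟩, h15⟩ := h
  have q1 : t ≠ swap d e := by
    rintro rfl
    apply hde
    rcases hs with rfl | rfl | rfl
    · rw [swaps_comm h3 h4 h7 h8] at hst
      exact double_T h13 h3.symm h7.symm h4.symm h8.symm h1 hst
    · rw [swaps_comm h3 h4 h10 h11] at hst
      exact double_T h13 h3.symm h10.symm h4.symm h11.symm h2 hst
    · rw [swaps_comm h7 h8 h10 h11] at hst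
      exact double_T h13 h7.symm h10.symm h8.symm h11.symm h6 hst
  have q2 : t ≠ swap d f := by
    rintro rfl
    apply hdf
    rcases hs with rfl | rfl | rfl
    · rw [swaps_comm h3 h5 h7 h9] at hst
      exact double_T h14 h3.symm h7.symm h5.symm h9.symm h1 hst
    · rw [swaps_comm h3 h5 h10 h12] at hst
      exact double_T h14 h3.symm h10.symm h5.symm h12.symm h2 hst
    · rw [swaps_comm h7 h9 h10 h12] at hst
      exact double_T h14 h7.symm h10.symm h9.symm h12.symm h6 hst
  have q3 : t = swap e f := by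
    rcases ht with h | h | h
    · exact absurd h q1
    · exact absurd h q2
    · exact h
  subst q3
  rcases hs with rfl | rfl | rfl
  · exact hst
  · exact absurd (double_T h2 h4 h5 h11 h12 h15 hst) hac
  · exact absurd (double_T h6 h8 h9 h11 h12 h15 hst) hbc

/-- at most two isolated points -/
lemma iso_le_two (hS : Six H) {x0 y1 y2 y3 : α} (hx : ¬ Iso H x0) (h1 : Iso H y1) (h2 : Iso H y2)
    (h3 : Iso H y3) (h12 : y1 ≠ y2) (h13 : y1 ≠ y3) (h23 : y2 ≠ y3) : False := by
  obtain ⟨x', x'', e1, e2, e3, r1, r2, -⟩ := three_of_not_iso hx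
  have hni : ∀ y x, Iso H y → R H x0 x → y ≠ x := by
    rintro y x hy hr rfl
    have := hy x0 hr.symm
    subst this
    exact hx hy
  have hnT : ∀ y x, Iso H y → R H x0 x → ¬ T H y x := by
    rintro y x hy hr (h | ⟨-, h⟩)
    · exact hni y x hy hr (hy x h)
    · have := h x0 hr.symm
      subst this
      exact hx h
  have r0 : R H x0 x0 := R.refl _
  have k1 : swap y1 y2 * swap x' x'' ∈ H := by
    apply six_use hS (c := x0) (d := y3)
    · rw [nodup6]
      exact ⟨⟨h12, hni _ _ h1 r0, h13, hni _ _ h1 r1, hni _ _ h1 r2⟩,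
        ⟨hni _ _ h2 r0, h23, hni _ _ h2 r1, hni _ _ h2 r2⟩, ⟨(hni _ _ h3 r0).symm, e1, e2⟩,
        ⟨hni _ _ h3 r1, hni _ _ h3 r2⟩, e3⟩
    · exact hnT _ _ h1 r0
    · exact hnT _ _ h2 r0
    · exact hnT _ _ h3 r1
    · exact hnT _ _ h3 r2
  have k2 : swap y1 y3 * swap x' x'' ∈ H := by
    apply six_use hS (c := x0) (d := y2)
    · rw [nodup6]
      exact ⟨⟨h13, hni _ _ h1 r0, h12, hni _ _ h1 r1, hni _ _ h1 r2⟩,
        ⟨hni _ _ h3 r0, h23.symm, hni _ _ h3 r1, hni _ _ h3 r2⟩, ⟨(hni _ _ h2 r0).symm, e1, e2⟩,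
        ⟨hni _ _ h2 r1, hni _ _ h2 r2⟩, e3⟩
    · exact hnT _ _ h1 r0
    · exact hnT _ _ h3 r0
    · exact hnT _ _ h2 r1
    · exact hnT _ _ h2 r2
  have k3 := H.mul_mem k1 k2
  rw [swaps_comm (hni _ _ h1 r1) (hni _ _ h1 r2) (hni _ _ h3 r1) (hni _ _ h3 r2), mul_assoc,
    ← mul_assoc (swap x' x'') (swap x' x''), swap_mul_self, one_mul, swap_comm y1 y2] at k3
  exact h12.symm (h2 y1 (R.of h12.symm h23 h13 k3))

/-- the structure of a group with the six point condition -/
theorem structure_of_six (hS : Six H) (hc : 12 ≤ Fintype.card α) :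
    ∃ x0, ¬ Iso H x0 ∧ ((∀ y, R H x0 y) ∨
      (∃ y0, ¬ R H x0 y0 ∧ ¬ Iso H y0 ∧ ∀ y, R H x0 y ∨ R H y0 y) ∨
      (∃ y1 y2, Iso H y1 ∧ Iso H y2 ∧ ∀ y, R H x0 y ∨ y = y1 ∨ y = y2)) := by
  obtain ⟨x0, hx0⟩ := exists_not_iso hS hc
  refine ⟨x0, hx0, ?_⟩
  by_cases h1 : ∀ y, R H x0 y
  · left; exact h1
  right
  push Not at h1
  obtain ⟨y0, hy0⟩ := h1
  have hT : ∀ y w, ¬ R H x0 y → ¬ R H x0 w → T H y w := by
    intro y w hy hw
    by_contra hcon
    refine two_types hS (by omega) (a := x0) (b := y) (c := w) ?_ ?_ hcon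
    · rintro (h | ⟨h, -⟩)
      · exact hy h
      · exact hx0 h
    · rintro (h | ⟨h, -⟩)
      · exact hw h
      · exact hx0 h
  by_cases h2 : Iso H y0
  · right
    have hiso : ∀ y, ¬ R H x0 y → Iso H y := by
      intro y hy
      rcases hT y0 y hy0 hy with h | ⟨-, h⟩
      · have := h2 y h
        rwa [← this]
      · exact h
    by_cases h3 : ∃ y1, ¬ R H x0 y1 ∧ y1 ≠ y0
    · obtain ⟨y1, hy1, hy1'⟩ := h3
      refine ⟨y0, y1, h2, hiso y1 hy1, ?_⟩
      intro y
      by_contra hcon
      push Not at hcon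
      obtain ⟨e1, e2, e3⟩ := hcon
      exact iso_le_two hS hx0 h2 (hiso y1 hy1) (hiso y e1) hy1'.symm e2.symm e3.symm
    · push Not at h3
      refine ⟨y0, y0, h2, h2, ?_⟩
      intro y
      by_cases hy : R H x0 y
      · left; exact hy
      · right; left; exact h3 y hy
  · left
    refine ⟨y0, hy0, h2, ?_⟩
    intro y
    by_cases hy : R H x0 y
    · left; exact hy
    · right
      rcases hT y0 y hy0 hy with h | ⟨h, -⟩
      · exact h
      · exact absurd h h2

lemma threeCycle_form {β : Type} [Fintype β] [DecidableEq β] {σ : Perm β} (h : σ.IsThreeCycle) :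
    ∃ a b c, a ≠ b ∧ a ≠ c ∧ b ≠ c ∧ σ = cyc a b c := by
  obtain ⟨a, ha⟩ := h.isCycle.nonempty_support
  have h1 := h.eq_swap_mul_swap_iff_mem_support.mpr ha
  have h2 := h.nodup_iff_mem_support.mpr ha
  simp only [List.nodup_cons, List.mem_cons, List.not_mem_nil, or_false, not_or] at h2
  exact ⟨a, σ a, σ (σ a), h2.1.1, h2.1.2, h2.2.1, h1⟩

/-- if all 3-cycles inside `X` are in `H` then all even permutations of `X` are -/
theorem altX (X : Finset α)
    (hX : ∀ a b c, a ∈ X → b ∈ X → c ∈ X → a ≠ b → a ≠ c → b ≠ c → cyc a b c ∈ H)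
    (σ : Perm α) (h1 : On X σ) (h2 : sign σ = 1) : σ ∈ H := by
  have hs : ∀ x, σ x ∈ X ↔ x ∈ X := by
    intro x
    constructor
    · intro h
      by_contra hx
      rw [h1 x hx] at h
      exact hx h
    · intro h
      by_contra hx
      have h3 := h1 _ hx
      have h4 := σ.injective h3
      rw [h4] at hx
      exact hx h
  have e1 : ofSubtype (σ.subtypePerm (p := fun x => x ∈ X) hs) = σ := by
    apply ofSubtype_subtypePerm
    intro x hx
    by_contra hx'
    exact hx (h1 x hx')
  have e2 : (σ.subtypePerm (p := fun x => x ∈ X) hs) ∈ alternatingGroup {x // x ∈ X} := by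
    rw [Equiv.Perm.mem_alternatingGroup, ← sign_ofSubtype, e1, h2]
  rw [← closure_three_cycles_eq_alternating] at e2
  have e3 : Subgroup.closure {σ : Perm {x // x ∈ X} | σ.IsThreeCycle} ≤
      H.comap (ofSubtype : Perm {x // x ∈ X} →* Perm α) := by
    rw [Subgroup.closure_le]
    intro τ hτ
    obtain ⟨a, b, c, hab, hac, hbc, rfl⟩ := threeCycle_form hτ
    show ofSubtype (cyc a b c) ∈ H
    unfold cyc
    rw [map_mul, ofSubtype_swap_eq, ofSubtype_swap_eq]
    exact hX a b c a.2 b.2 c.2 (fun h => hab (Subtype.ext h)) (fun h => hac (Subtype.ext h))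
      (fun h => hbc (Subtype.ext h))
  have e4 := e3 e2
  rw [Subgroup.mem_comap, e1] at e4
  exact e4

/-- even permutations inside the class of `x0` -/
theorem alt_class (x0 : α) (σ : Perm α) (h1 : ∀ x, ¬ R H x0 x → σ x = x) (h2 : sign σ = 1) :
    σ ∈ H := by
  classical
  apply altX (univ.filter fun x => R H x0 x) _ σ _ h2
  · intro a b c ha hb hc hab hac hbc
    simp only [Finset.mem_filter, Finset.mem_univ, true_and] at ha hb hc
    exact R.cyc_mem (ha.symm.trans hb) (ha.symm.trans hc) hab hac hbc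
  · intro x hx
    apply h1
    simpa using hx

/-- an odd permutation of three points -/
lemma odd3 {a b c : α} (hab : a ≠ b) (hac : a ≠ c) (hbc : b ≠ c) (σ : Perm α)
    (h : On {a, b, c} σ) (hs : sign σ = -1) : σ = swap a b ∨ σ = swap a c ∨ σ = swap b c := by
  have hmem : ∀ x, x = a ∨ x = b ∨ x = c → σ x = a ∨ σ x = b ∨ σ x = c := by
    intro x hx
    by_contra hcon
    have h1 : σ x ∉ ({a, b, c} : Finset α) := by simpa using hcon
    have h2 := σ.injective (h _ h1)
    rw [h2] at hcon
    exact hcon hx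
  have hout : ∀ x, x ≠ a → x ≠ b → x ≠ c → σ x = x := by
    intro x h1 h2 h3
    apply h
    simp [h1, h2, h3]
  have hcyc : ∀ x y z : α, x ≠ y → x ≠ z → y ≠ z → sign (cyc x y z) = 1 := by
    intro x y z h1 h2 h3
    unfold cyc
    rw [Perm.sign_mul, sign_swap h1, sign_swap h3]; rfl
  have hne : (1 : ℤˣ) ≠ -1 := by decide
  have ia := hmem a (Or.inl rfl)
  have ib := hmem b (Or.inr (Or.inl rfl))
  have ic := hmem c (Or.inr (Or.inr rfl))
  have nab := σ.injective.ne hab
  have nac := σ.injective.ne hac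
  have nbc := σ.injective.ne hbc
  rcases ia with ia | ia | ia
  · rcases ib with ib | ib | ib
    · rw [ia, ib] at nab; exact absurd rfl nab
    · rcases ic with ic | ic | ic
      · rw [ia, ic] at nac; exact absurd rfl nac
      · rw [ib, ic] at nbc; exact absurd rfl nbc
      · exfalso
        have : σ = 1 := by
          ext x
          by_cases h1 : x = a
          · rw [h1, ia]; rfl
          by_cases h2 : x = b
          · rw [h2, ib]; rfl
          by_cases h3 : x = c
          · rw [h3, ic]; rfl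
          rw [hout x h1 h2 h3]; rfl
        rw [this, Perm.sign_one] at hs
        exact hne hs
    · rcases ic with ic | ic | ic
      · rw [ia, ic] at nac; exact absurd rfl nac
      · right; right
        ext x
        by_cases h1 : x = a
        · rw [h1, ia, swap_apply_of_ne_of_ne hab hac]
        by_cases h2 : x = b
        · rw [h2, ib, swap_apply_left]
        by_cases h3 : x = c
        · rw [h3, ic, swap_apply_right]
        rw [hout x h1 h2 h3, swap_apply_of_ne_of_ne h2 h3]
      · rw [ib, ic] at nbc; exact absurd rfl nbc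
  · rcases ib with ib | ib | ib
    · rcases ic with ic | ic | ic
      · rw [ib, ic] at nbc; exact absurd rfl nbc
      · rw [ia, ic] at nac; exact absurd rfl nac
      · left
        ext x
        by_cases h1 : x = a
        · rw [h1, ia, swap_apply_left]
        by_cases h2 : x = b
        · rw [h2, ib, swap_apply_right]
        by_cases h3 : x = c
        · rw [h3, ic, swap_apply_of_ne_of_ne hac.symm hbc.symm]
        rw [hout x h1 h2 h3, swap_apply_of_ne_of_ne h1 h2]
    · rw [ia, ib] at nab; exact absurd rfl nab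
    · rcases ic with ic | ic | ic
      · exfalso
        have : σ = cyc a b c := by
          ext x
          by_cases h1 : x = a
          · rw [h1, ia, cyc_apply_one hab hac]
          by_cases h2 : x = b
          · rw [h2, ib, cyc_apply_two hac hbc]
          by_cases h3 : x = c
          · rw [h3, ic, cyc_apply_three]
          rw [hout x h1 h2 h3, cyc_apply_of_ne h1 h2 h3]
        rw [this, hcyc _ _ _ hab hac hbc] at hs
        exact hne hs
      · rw [ia, ic] at nac; exact absurd rfl nac
      · rw [ib, ic] at nbc; exact absurd rfl nbc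
  · rcases ib with ib | ib | ib
    · rcases ic with ic | ic | ic
      · rw [ib, ic] at nbc; exact absurd rfl nbc
      · exfalso
        have : σ = cyc b a c := by
          ext x
          by_cases h1 : x = a
          · rw [h1, ia, cyc_apply_two hbc hac]
          by_cases h2 : x = b
          · rw [h2, ib, cyc_apply_one hab.symm hbc]
          by_cases h3 : x = c
          · rw [h3, ic, cyc_apply_three]
          rw [hout x h1 h2 h3, cyc_apply_of_ne h2 h1 h3]
        rw [this, hcyc _ _ _ hab.symm hbc hac] at hs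
        exact hne hs
      · rw [ia, ic] at nac; exact absurd rfl nac
    · rcases ic with ic | ic | ic
      · right; left
        ext x
        by_cases h1 : x = a
        · rw [h1, ia, swap_apply_left]
        by_cases h2 : x = b
        · rw [h2, ib, swap_apply_of_ne_of_ne hab.symm hbc]
        by_cases h3 : x = c
        · rw [h3, ic, swap_apply_right]
        rw [hout x h1 h2 h3, swap_apply_of_ne_of_ne h1 h3]
      · rw [ib, ic] at nbc; exact absurd rfl nbc
      · rw [ia, ic] at nac; exact absurd rfl nac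
    · rw [ia, ib] at nab; exact absurd rfl nab

end Run7.h947
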